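import Pool.Agent.H993R2.LT.Samp

set_option autoImplicit false
set_option linter.unusedSectionVars false
set_option linter.unusedVariables false

/-!
The final assembly.
-/

namespace Pool.Agent.H993R2.LT

open scoped BigOperators Classical
open Pool.Agent.H993R2.TP (ind ind_nonneg ind_le_one ind_pos ind_neg ind_mono ind_and ind_or_le ind_not
  ind_exists_le ind_exists_le' sum_ind_le_one)

noncomputable section

lemma del {V : Type} (A : Finset V) (F : Finset (Finset V)) (hF : ∀ f ∈ F, f.Nonempty) :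
    ∃ A' ⊆ A, A.card ≤ A'.card + F.card ∧ ∀ f ∈ F, ¬ f ⊆ A' := by
  induction F using Finset.induction_on with
  | empty => exact ⟨A, Finset.Subset.refl _, by simp, by simp⟩
  | insert f F hf ih =>
    obtain ⟨A', h1, h2, h3⟩ := ih fun f' hf' => hF f' (Finset.mem_insert_of_mem hf')
    rw [Finset.card_insert_of_notMem hf]
    by_cases hfA : f ⊆ A'
    · obtain ⟨x, hx⟩ := hF f (Finset.mem_insert_self _ _)
      refine ⟨A'.erase x, (Finset.erase_subset _ _).trans h1, ?_, ?_⟩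
      · rw [Finset.card_erase_of_mem (hfA hx)]; omega
      · intro f' hf' hsub
        rw [Finset.mem_insert] at hf'
        rcases hf' with rfl | hf'
        · exact Finset.notMem_erase x A' (hsub hx)
        · exact h3 f' hf' (hsub.trans (Finset.erase_subset _ _))
    · refine ⟨A', h1, by omega, ?_⟩
      intro f' hf'
      rw [Finset.mem_insert] at hf'
      rcases hf' with rfl | hf'
      · exact hfA
      · exact h3 f' hf'

def Lc (K : ℝ) (l : ℝ) : ℝ := 8 * (2688 * l * K + 5376 * K ^ 2)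

def Dc (K : ℝ) (l : ℝ) : ℝ := 8 * Real.exp (Lc K l) * K

def lam (K : ℝ) : ℕ → ℝ
  | 0 => 1
  | j + 1 => 1344 * (Dc K (lam K j)) ^ 3

lemma lam_step {K l : ℝ} (hK : 1 ≤ K) (hl : 1 ≤ l) : l ≤ Dc K l ∧ 8 ≤ Dc K l ∧
    Dc K l ≤ 1344 * (Dc K l) ^ 3 := by
  have h1 : l ≤ Lc K l := by
    unfold Lc
    nlinarith [mul_le_mul_of_nonneg_left hK (by linarith : (0:ℝ) ≤ l), sq_nonneg K]
  have h2 := Real.add_one_le_exp (Lc K l)
  have h3 : Real.exp (Lc K l) ≤ Real.exp (Lc K l) * K := by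
    have := Real.exp_pos (Lc K l)
    nlinarith
  have h4 : l + 1 ≤ Real.exp (Lc K l) * K := by linarith
  have h5 : Dc K l = 8 * (Real.exp (Lc K l) * K) := by unfold Dc; ring
  have h6 : 8 ≤ Dc K l := by rw [h5]; linarith
  refine ⟨by rw [h5]; linarith, h6, ?_⟩
  have h7 : 1 ≤ (Dc K l) ^ 2 := by nlinarith
  nlinarith

lemma lam_ge {K : ℝ} (hK : 1 ≤ K) (j : ℕ) : 1 ≤ lam K j := by
  induction j with
  | zero => exact le_rfl
  | succ j ih =>
    obtain ⟨h1, h2, h3⟩ := lam_step hK ih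
    show 1 ≤ 1344 * (Dc K (lam K j)) ^ 3
    linarith

lemma lam_mono {K : ℝ} (hK : 1 ≤ K) : Monotone (lam K) := by
  apply monotone_nat_of_le_succ
  intro j
  obtain ⟨h1, h2, h3⟩ := lam_step hK (lam_ge hK j)
  show lam K j ≤ 1344 * (Dc K (lam K j)) ^ 3
  linarith

lemma lam_D {K : ℝ} (hK : 1 ≤ K) (j : ℕ) : Dc K (lam K j) ≤ lam K (j + 1) := by
  obtain ⟨h1, h2, h3⟩ := lam_step hK (lam_ge hK j)
  exact h3

/-- the numerical core for one window -/
theorem window {N : ℕ} (H : LS (Fin N)) (K τ l : ℝ) (J : ℕ) (hK : 1 ≤ K) (hl : 1 ≤ l)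
    (hJ : 129024 * K ^ 2 ≤ J) (hτ : 4 * l ≤ τ) (hτD : Dc K l ≤ τ) (hκ : H.κ ≤ τ ^ 2)
    (hw : ∑ x, ∑ y, ∑ z, ind (H.E (τ / l) x y z ∧ ¬ H.E (τ / (1344 * (Dc K l) ^ 3)) x y z)
      ≤ 42 * H.κ * N / J) :
    K * N / (16 * τ) - 1 ≤ τ ^ 2 := by
  obtain ⟨s1, s2, s3⟩ := lam_step hK hl
  set D := Dc K l with hD
  set l' := 1344 * D ^ 3 with hl'
  have hD0 : 0 < D := by linarith
  have hl'0 : 0 < l' := by positivity
  have hl0 : 0 < l := by linarith
  have hτ0 : 0 < τ := by linarith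
  have hK0 : 0 < K := by linarith
  have hJ0 : (0 : ℝ) < J := by nlinarith [sq_nonneg K]
  have hN0 : (0 : ℝ) ≤ N := by positivity
  have hκ0 := LS.κ_nonneg (H := H)
  set h := τ / l with hh
  set h' := τ / l' with hh'
  have h4 : 4 ≤ h := by rw [hh, le_div_iff₀ hl0]; exact hτ
  have hh'h : h' ≤ h := by
    rw [hh, hh']
    exact div_le_div_of_nonneg_left hτ0.le hl0 (by linarith)
  have hh0 : 0 < h := by linarith
  have hh'0 : 0 ≤ h' := by rw [hh']; positivity
  have hκN : 42 * H.κ * (Fintype.card (Fin N) : ℝ) ≤ 42 * τ ^ 2 * N := by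
    rw [Fintype.card_fin]; gcongr
  set F : Finset (Finset (Fin N)) := (Finset.univ.filter (fun t : Fin N × Fin N × Fin N =>
    H.E h t.1 t.2.1 t.2.2 ∧ ¬ H.E h' t.1 t.2.1 t.2.2)).image (fun t => {t.1, t.2.1, t.2.2}) with hF
  have hFmem : ∀ f ∈ F, ∃ x y z, H.E h x y z ∧ ¬ H.E h' x y z ∧ f = {x, y, z} := by
    intro f hf
    rw [hF, Finset.mem_image] at hf
    obtain ⟨⟨x, y, z⟩, ht, rfl⟩ := hf
    rw [Finset.mem_filter] at ht
    exact ⟨x, y, z, ht.2.1, ht.2.2, rfl⟩
  have hF3 : ∀ f ∈ F, f.card = 3 := by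
    intro f hf
    obtain ⟨x, y, z, he, -, rfl⟩ := hFmem f hf
    exact Finset.card_eq_three.mpr ⟨x, y, z, H.T1 he.1, LS.T13 he.1, LS.T23' he.1, rfl⟩
  have hFc : (F.card : ℝ) ≤ (42 * τ ^ 2 / J) * N := by
    have h1 : (F.card : ℝ) ≤ ((Finset.univ.filter (fun t : Fin N × Fin N × Fin N =>
        H.E h t.1 t.2.1 t.2.2 ∧ ¬ H.E h' t.1 t.2.1 t.2.2)).card : ℝ) := by
      exact_mod_cast Finset.card_image_le
    refine h1.trans ?_
    have h2 : ((Finset.univ.filter (fun t : Fin N × Fin N × Fin N =>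
        H.E h t.1 t.2.1 t.2.2 ∧ ¬ H.E h' t.1 t.2.1 t.2.2)).card : ℝ)
        = ∑ t : Fin N × Fin N × Fin N, ind (H.E h t.1 t.2.1 t.2.2 ∧ ¬ H.E h' t.1 t.2.1 t.2.2) := by
      rw [Finset.card_filter]
      push_cast
      refine Finset.sum_congr rfl fun t _ => ?_
      by_cases hc : H.E h t.1 t.2.1 t.2.2 ∧ ¬ H.E h' t.1 t.2.1 t.2.2
      · rw [if_pos hc, ind_pos hc]
      · rw [if_neg hc, ind_neg hc]
    rw [h2]
    simp only [Fintype.sum_prod_type]
    refine hw.trans ?_
    calc 42 * H.κ * N / J ≤ 42 * τ ^ 2 * N / J := by gcongr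
      _ = _ := by ring
  set p := D / τ with hp
  have hp0 : 0 < p := by positivity
  have hp1 : p ≤ 1 := by rw [hp, div_le_one hτ0]; exact hτD
  obtain ⟨W, w1, w2, w3, w4, w5⟩ := sample (H.G h) (H.E h') (H.Ov h h') F p (42 * τ * l)
    (42 * τ ^ 2) (42 * τ ^ 3 / l') (42 * τ ^ 2 / J) hp0 hp1 (by positivity) (by positivity)
    (by positivity)
    (by
      refine (LS.sum_G_le hh0).trans ?_
      rw [div_le_iff₀ hh0]
      refine hκN.trans (le_of_eq ?_)
      rw [hh]; field_simp)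
    (fun x y hg => LS.G_ne h4 hg)
    (by
      refine le_trans ?_ (LS.sum_T_le.trans hκN)
      exact Finset.sum_le_sum fun x _ => Finset.sum_le_sum fun y _ => Finset.sum_le_sum fun z _ =>
        ind_mono fun he => he.1)
    (fun x y z he => ⟨H.T1 he.1, LS.T13 he.1, LS.T23' he.1⟩)
    (by
      refine (LS.sum_Ov_le hh'0).trans ?_
      refine (mul_le_mul_of_nonneg_left hκN hh'0).trans (le_of_eq ?_)
      rw [hh']; ring)
    (fun x y z w ho => ⟨H.T1 ho.1.1, LS.T13 ho.1.1, LS.T13 ho.2.1.1, LS.T23' ho.1.1,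
      LS.T23' ho.2.1.1, ho.2.2⟩)
    hFc hF3
    (by
      apply le_of_eq
      rw [hp, hl']; field_simp; norm_num)
  have hNO : H.NO h h' W := by
    intro x hx y hy z hz w hw' e1 e2
    by_contra hzw
    exact w4 x hx y hy z hz w hw' ⟨e1, e2, hzw⟩
  set L := Lc K l with hL
  have hL0 : 0 < L := by rw [hL]; unfold Lc; positivity
  set ν := K / D with hν
  have hν0 : 0 < ν := by positivity
  have hDν : D * ν = K := by rw [hν]; field_simp
  set F' := F.filter (fun f => f ⊆ W) with hF'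
  have hexp : 0 < Real.exp L := Real.exp_pos L
  have hDe : D = 8 * Real.exp L * K := rfl
  obtain ⟨A, hAW, hA1, hA2, hA3⟩ := process (H.G h) (H.E h') W LS.G_symm
    (fun hg => LS.G_ne h4 hg) LS.E12 LS.E23 (fun he => H.T1 he.1)
    (2688 * l * D) (2688 * D ^ 2) ν L hν0 hL0 (by positivity) (by positivity)
    (by
      intro v hv
      refine (w2 v hv).trans (le_of_eq ?_)
      rw [hp]; field_simp; norm_num)
    (by
      intro v hv
      refine (w3 v hv).trans (le_of_eq ?_)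
      rw [hp]; field_simp; norm_num)
    (fun u hu v hv hg => LS.disP_G h4 hh'h hNO hu hv hg)
    (fun u hu v hv x hx he => LS.disP_E h4 hh'h hNO hu hv hx (LS.E_mono hh'h he))
    (by
      apply le_of_eq
      rw [hν, hDe]; field_simp; norm_num)
    (by
      apply le_of_eq
      have e1 : 2688 * l * D * ν + 2 * (2688 * D ^ 2) * ν ^ 2 = L / 8 := by
        calc 2688 * l * D * ν + 2 * (2688 * D ^ 2) * ν ^ 2
            = 2688 * l * (D * ν) + 5376 * (D * ν) ^ 2 := by ring
          _ = L / 8 := by rw [hDν, hL]; unfold Lc; ring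
      rw [e1]; field_simp; norm_num)
    F' (fun f hf => hF3 f (Finset.mem_filter.mp hf).1)
    (by
      intro f hf
      rw [hF', Finset.mem_filter] at hf
      obtain ⟨x, y, z, he, -, rfl⟩ := hFmem f hf.1
      have hx : x ∈ W := hf.2 (by simp)
      have hy : y ∈ W := hf.2 (by simp)
      have hz : z ∈ W := hf.2 (by simp)
      convert LS.disP_E h4 hh'h hNO hx hy hz he)
  set F'' := F'.filter (fun f => f ⊆ A) with hF''
  have hFs : ∑ f ∈ F', ind (f ⊆ A) = (F''.card : ℝ) := by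
    rw [hF'', Finset.card_filter]
    push_cast
    refine Finset.sum_congr rfl fun z _ => ?_
    by_cases h : z ⊆ A
    · rw [if_pos h, ind_pos h]
    · rw [if_neg h, ind_neg h]
  obtain ⟨A', hA'1, hA'2, hA'3⟩ := del A F'' (by
    intro f hf
    rw [hF'', Finset.mem_filter, hF', Finset.mem_filter] at hf
    rw [← Finset.card_pos, hF3 f hf.1.1]; norm_num)
  have hind : ∀ x ∈ A', ∀ y ∈ A', ∀ z ∈ A', ¬ H.T x y z := by
    intro x hx y hy z hz hT
    have hxA := hA'1 hx
    have hyA := hA'1 hy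
    have hzA := hA'1 hz
    have hE : H.E h x y z := by
      refine ⟨hT, ?_, ?_, ?_⟩
      · by_contra hc
        push Not at hc
        exact hA1 x hxA y hyA hc
      · by_contra hc
        push Not at hc
        exact hA1 y hyA z hzA hc
      · by_contra hc
        push Not at hc
        exact hA1 x hxA z hzA hc
    have hE' : ¬ H.E h' x y z := hA2 x hxA y hyA z hzA
    have hsub : ∀ B : Finset (Fin N), x ∈ B → y ∈ B → z ∈ B → ({x, y, z} : Finset (Fin N)) ⊆ B := by
      intro B b1 b2 b3 a ha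
      simp only [Finset.mem_insert, Finset.mem_singleton] at ha
      rcases ha with rfl | rfl | rfl <;> assumption
    have hmem : ({x, y, z} : Finset (Fin N)) ∈ F := by
      rw [hF, Finset.mem_image]
      exact ⟨(x, y, z), Finset.mem_filter.mpr ⟨Finset.mem_univ _, hE, hE'⟩, rfl⟩
    have hmem'' : ({x, y, z} : Finset (Fin N)) ∈ F'' := by
      rw [hF'', Finset.mem_filter, hF', Finset.mem_filter]
      exact ⟨⟨hmem, hsub W (hAW hxA) (hAW hyA) (hAW hzA)⟩, hsub A hxA hyA hzA⟩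
    exact hA'3 _ hmem'' (hsub A' hx hy hz)
  have f1 : (A'.card : ℝ) ≤ τ ^ 2 := (H.hind A' hind).trans hκ
  have f2 : (A.card : ℝ) ≤ A'.card + F''.card := by exact_mod_cast hA'2
  rw [hFs] at hA3
  have f3 : 48 * ν ^ 3 * (F'.card : ℝ) ≤ W.card * ν / 4 := by
    have g1 : (F'.card : ℝ) ≤ 672 * D ^ 2 / J * W.card := by
      refine w5.trans (le_of_eq ?_)
      rw [hp]; field_simp; ring
    calc 48 * ν ^ 3 * (F'.card : ℝ) ≤ 48 * ν ^ 3 * (672 * D ^ 2 / J * W.card) := by gcongr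
      _ = (32256 * (D * ν) ^ 2 / J) * (W.card * ν) := by ring
      _ ≤ (1 / 4) * (W.card * ν) := by
          apply mul_le_mul_of_nonneg_right _ (by positivity)
          rw [hDν, div_le_iff₀ hJ0]
          linarith
      _ = _ := by ring
  have f4 : K * N / (16 * τ) ≤ W.card * ν / 4 := by
    have g1 : p * N / 4 * ν / 4 ≤ W.card * ν / 4 := by gcongr
    have g2 : p * N / 4 * ν / 4 = K * N / (16 * τ) := by
      calc p * N / 4 * ν / 4 = (D * ν) * N / (16 * τ) := by rw [hp]; ring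
        _ = _ := by rw [hDν]
    linarith
  linarith

theorem main_bound (K : ℝ) (hK : 1 ≤ K) : ∃ τ0 : ℝ, ∀ (N : ℕ) (H : LS (Fin N)) (τ : ℝ),
    τ0 ≤ τ → H.κ ≤ τ ^ 2 → K * N / (16 * τ) - 1 ≤ τ ^ 2 := by
  obtain ⟨J, hJ⟩ := exists_nat_ge (129024 * K ^ 2)
  refine ⟨4 * lam K J, ?_⟩
  intro N H τ hτ hκ
  have hJ0 : (0 : ℝ) < J := by nlinarith [sq_nonneg K]
  have hJn : 0 < J := by exact_mod_cast hJ0
  have hτ0 : 0 < τ := by have := lam_ge hK J; linarith
  set S : ℕ → ℝ := fun j => ∑ x, ∑ y, ∑ z, ind (H.E (τ / lam K j) x y z ∧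
    ¬ H.E (τ / lam K (j + 1)) x y z) with hS
  have hmono : ∀ j, τ / lam K (j + 1) ≤ τ / lam K j := fun j =>
    div_le_div_of_nonneg_left hτ0.le (by have := lam_ge hK j; linarith)
      (lam_mono hK (Nat.le_succ j))
  have hdiff : ∀ j x y z, ind (H.E (τ / lam K j) x y z ∧ ¬ H.E (τ / lam K (j + 1)) x y z)
      = ind (H.E (τ / lam K j) x y z) - ind (H.E (τ / lam K (j + 1)) x y z) := by
    intro j x y z
    by_cases h1 : H.E (τ / lam K (j + 1)) x y z
    · have h2 : H.E (τ / lam K j) x y z := LS.E_mono (hmono j) h1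
      rw [ind_pos h1, ind_pos h2, ind_neg (fun h => h.2 h1)]; ring
    · by_cases h2 : H.E (τ / lam K j) x y z
      · rw [ind_neg h1, ind_pos h2, ind_pos ⟨h2, h1⟩]; ring
      · rw [ind_neg h1, ind_neg h2, ind_neg (fun h => h2 h.1)]; ring
  have hsum : ∑ j ∈ Finset.range J, S j ≤ 42 * H.κ * N := by
    have h1 : ∑ j ∈ Finset.range J, S j = ∑ x, ∑ y, ∑ z, ∑ j ∈ Finset.range J,
        (ind (H.E (τ / lam K j) x y z) - ind (H.E (τ / lam K (j + 1)) x y z)) := by
      rw [hS]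
      simp only
      rw [Finset.sum_comm]
      refine Finset.sum_congr rfl fun x _ => ?_
      rw [Finset.sum_comm]
      refine Finset.sum_congr rfl fun y _ => ?_
      rw [Finset.sum_comm]
      refine Finset.sum_congr rfl fun z _ => ?_
      exact Finset.sum_congr rfl fun j _ => hdiff j x y z
    have h2 := LS.sum_T_le (H := H)
    rw [Fintype.card_fin] at h2
    refine le_trans ?_ h2
    rw [h1]
    refine Finset.sum_le_sum fun x _ => Finset.sum_le_sum fun y _ => Finset.sum_le_sum fun z _ => ?_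
    rw [Finset.sum_range_sub' (fun j => ind (H.E (τ / lam K j) x y z))]
    have n1 := ind_nonneg (H.E (τ / lam K J) x y z)
    have n2 : ind (H.E (τ / lam K 0) x y z) ≤ ind (H.T x y z) := ind_mono fun h => h.1
    linarith
  obtain ⟨j, hj, hSj⟩ := Finset.exists_le_of_sum_le (s := Finset.range J) (f := S)
    (g := fun _ => 42 * H.κ * N / J) ⟨0, Finset.mem_range.mpr hJn⟩ (by
      rw [Finset.sum_const, Finset.card_range, nsmul_eq_mul]
      refine hsum.trans (le_of_eq ?_)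
      field_simp)
  rw [Finset.mem_range] at hj
  have hlJ : lam K j ≤ lam K J := lam_mono hK hj.le
  have hDJ : Dc K (lam K j) ≤ lam K J := (lam_D hK j).trans (lam_mono hK hj)
  have hJge := lam_ge hK J
  exact window H K τ (lam K j) J hK (lam_ge hK j) hJ (by linarith) (by linarith) hκ hSj

end

end Pool.Agent.H993R2.LT
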