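import Pool.Agent.H993R2.TP.Sys

set_option autoImplicit false
set_option linter.unusedSectionVars false
set_option linter.unusedVariables false

/-!
A weighted greedy process (in expectation only, no concentration of measure).
-/

namespace Pool.Agent.H993R2.LT

open scoped BigOperators Classical
open Pool.Agent.H993R2.TP (ind ind_nonneg ind_le_one ind_pos ind_neg ind_mono ind_and ind_or_le ind_not
  ind_exists_le ind_exists_le')

noncomputable section

/-- a state of the process -/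
structure St (V : Type) where
  r : V → ℝ
  A : Finset V

/-- context: a graph `G`, a triple system `T` and the process parameters -/
structure Ctx (V : Type) [Fintype V] where
  G : V → V → Prop
  T : V → V → V → Prop
  W : Finset V
  Gs : ∀ {x y}, G x y → G y x
  Gi : ∀ {x y}, G x y → x ≠ y
  T12 : ∀ {x y z}, T x y z → T y x z
  T23 : ∀ {x y z}, T x y z → T x z y
  T1 : ∀ {x y z}, T x y z → x ≠ y
  r0 : ℝ
  L : ℝ
  Δ : ℝ
  d2 : ℝ
  h0 : 0 < r0
  hL : 0 < L
  hΔ0 : 0 ≤ Δ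
  hd0 : 0 ≤ d2
  hΔ : ∀ v ∈ W, ∑ u ∈ W, ind (G u v) ≤ Δ
  hd : ∀ v ∈ W, ∑ u ∈ W, ∑ x ∈ W, ind (T u v x) ≤ d2
  hsum : (W.card : ℝ) * (r0 * Real.exp L) ≤ 1
  hσ : (Δ + d2) * (r0 * Real.exp L) ≤ 1 / 4
  hr : r0 * Real.exp L ≤ 1 / 4

namespace Ctx

variable {V : Type} [Fintype V] (C : Ctx V)

def rh : ℝ := C.r0 * Real.exp C.L

def B (A : Finset V) (v : V) : Finset V :=
  C.W.filter (fun u => C.G u v ∨ ∃ x ∈ A, C.T u v x)

def g (x : ℝ) : ℝ := if x ≤ C.rh then x else 0

def sg (s : St V) (v : V) : ℝ := ∑ u ∈ C.B s.A v, s.r u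

def up (s : St V) (v : V) : ℝ := C.g (s.r v / (1 - C.sg s v))

def nx (s : St V) : Option V → St V
  | none => ⟨C.up s, s.A⟩
  | some w => ⟨fun v => if v = w ∨ w ∈ C.B s.A v then 0 else C.up s v, insert w s.A⟩

def P (f : St V → ℝ) (s : St V) : ℝ :=
  (1 - ∑ u ∈ C.W, s.r u) * f (C.nx s none) + ∑ u ∈ C.W, s.r u * f (C.nx s (some u))

structure Inv (s : St V) : Prop where
  nn : ∀ v, 0 ≤ s.r v
  le : ∀ v, s.r v ≤ C.rh
  ge : ∀ v, s.r v ≠ 0 → C.r0 ≤ s.r v
  out : ∀ v, v ∉ C.W → s.r v = 0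
  act : ∀ v ∈ s.A, s.r v = 0
  sub : s.A ⊆ C.W
  iG : ∀ a ∈ s.A, ∀ b ∈ s.A, ¬ C.G a b
  iT : ∀ a ∈ s.A, ∀ b ∈ s.A, ∀ c ∈ s.A, ¬ C.T a b c
  aG : ∀ v, s.r v ≠ 0 → ∀ a ∈ s.A, ¬ C.G a v
  aT : ∀ v, s.r v ≠ 0 → ∀ a ∈ s.A, ∀ b ∈ s.A, ¬ C.T v a b

def s0 : St V := ⟨fun v => if v ∈ C.W then C.r0 else 0, ∅⟩

variable {C}

lemma rh_pos : 0 < C.rh := mul_pos C.h0 (Real.exp_pos _)

lemma r0_le_rh : C.r0 ≤ C.rh := by
  unfold rh
  have h1 := Real.add_one_le_exp C.L
  have h2 := C.hL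
  have h3 := C.h0
  nlinarith

lemma mem_B {A : Finset V} {u v : V} :
    u ∈ C.B A v ↔ u ∈ C.W ∧ (C.G u v ∨ ∃ x ∈ A, C.T u v x) := by
  unfold B; rw [Finset.mem_filter]

lemma T13 {x y z : V} (h : C.T x y z) : x ≠ z := C.T1 (C.T23 h)

lemma T23' {x y z : V} (h : C.T x y z) : y ≠ z := C.T1 (C.T23 (C.T12 h))

lemma not_mem_B (A : Finset V) (v : V) : v ∉ C.B A v := by
  rw [mem_B]
  rintro ⟨-, h | ⟨x, -, h⟩⟩
  · exact C.Gi h rfl
  · exact C.T1 h rfl

lemma sg_le_sum {s : St V} (h : C.Inv s) (v : V) :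
    C.sg s v ≤ ∑ u ∈ C.W, ind (C.G u v) * s.r u
      + ∑ u ∈ C.W, ∑ x ∈ C.W, ind (C.T u v x) * (ind (x ∈ s.A) * s.r u) := by
  unfold sg B
  rw [Finset.sum_filter, ← Finset.sum_add_distrib]
  refine Finset.sum_le_sum fun u _ => ?_
  have hr := h.nn u
  have n1 : 0 ≤ ind (C.G u v) * s.r u := mul_nonneg (ind_nonneg _) hr
  have n2 : ∀ x ∈ C.W, 0 ≤ ind (C.T u v x) * (ind (x ∈ s.A) * s.r u) := fun x _ =>
    mul_nonneg (ind_nonneg _) (mul_nonneg (ind_nonneg _) hr)
  have n3 := Finset.sum_nonneg n2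
  split_ifs with hc
  · rcases hc with hc | ⟨x, hx, hc⟩
    · rw [ind_pos hc]; linarith
    · have h1 := Finset.single_le_sum n2 (h.sub hx)
      rw [ind_pos hc, ind_pos hx] at h1
      linarith
  · linarith

lemma sg_nonneg {s : St V} (h : C.Inv s) (v : V) : 0 ≤ C.sg s v :=
  Finset.sum_nonneg fun u _ => h.nn u

lemma sg_le {s : St V} (h : C.Inv s) {v : V} (hv : v ∈ C.W) : C.sg s v ≤ 1 / 4 := by
  refine (sg_le_sum h v).trans (le_trans ?_ C.hσ)
  have h1 : ∑ u ∈ C.W, ind (C.G u v) * s.r u ≤ C.Δ * C.rh := by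
    calc _ ≤ ∑ u ∈ C.W, ind (C.G u v) * C.rh :=
          Finset.sum_le_sum fun u _ => mul_le_mul_of_nonneg_left (h.le u) (ind_nonneg _)
      _ = (∑ u ∈ C.W, ind (C.G u v)) * C.rh := by rw [Finset.sum_mul]
      _ ≤ _ := mul_le_mul_of_nonneg_right (C.hΔ v hv) rh_pos.le
  have h2 : ∑ u ∈ C.W, ∑ x ∈ C.W, ind (C.T u v x) * (ind (x ∈ s.A) * s.r u) ≤ C.d2 * C.rh := by
    calc _ ≤ ∑ u ∈ C.W, ∑ x ∈ C.W, ind (C.T u v x) * C.rh := by
          refine Finset.sum_le_sum fun u _ => Finset.sum_le_sum fun x _ => ?_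
          apply mul_le_mul_of_nonneg_left _ (ind_nonneg _)
          have h3 := ind_le_one (x ∈ s.A)
          have h4 := h.le u
          have h5 := h.nn u
          have h6 := ind_nonneg (x ∈ s.A)
          nlinarith
      _ = (∑ u ∈ C.W, ∑ x ∈ C.W, ind (C.T u v x)) * C.rh := by
          rw [Finset.sum_mul]
          refine Finset.sum_congr rfl fun u _ => ?_
          rw [Finset.sum_mul]
      _ ≤ _ := mul_le_mul_of_nonneg_right (C.hd v hv) rh_pos.le
  have h3 : (C.Δ + C.d2) * (C.r0 * Real.exp C.L) = C.Δ * C.rh + C.d2 * C.rh := by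
    unfold rh; ring
  linarith

lemma sum_r_le {s : St V} (h : C.Inv s) : ∑ u ∈ C.W, s.r u ≤ 1 := by
  calc ∑ u ∈ C.W, s.r u ≤ ∑ _u ∈ C.W, C.rh := Finset.sum_le_sum fun u _ => h.le u
    _ = C.W.card * C.rh := by rw [Finset.sum_const, nsmul_eq_mul]
    _ ≤ 1 := C.hsum

lemma g_nonneg {x : ℝ} (hx : 0 ≤ x) : 0 ≤ C.g x := by
  unfold g; split_ifs <;> linarith

lemma g_le (x : ℝ) (hx : 0 ≤ x) : C.g x ≤ x := by
  unfold g; split_ifs <;> linarith

lemma g_le_rh (x : ℝ) : C.g x ≤ C.rh := by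
  unfold g
  have := rh_pos (C := C)
  split_ifs <;> linarith

/-- value before the cap -/
def pre (C : Ctx V) (s : St V) (v : V) : ℝ := s.r v / (1 - C.sg s v)

lemma up_eq (s : St V) (v : V) : C.up s v = C.g (C.pre s v) := rfl

lemma pre_zero {s : St V} {v : V} (h : s.r v = 0) : C.pre s v = 0 := by
  unfold pre; rw [h, zero_div]

lemma up_zero {s : St V} {v : V} (h : s.r v = 0) : C.up s v = 0 := by
  rw [up_eq, pre_zero h]
  unfold g; split_ifs <;> rfl

lemma mem_W_of_ne {s : St V} (h : C.Inv s) {v : V} (hv : s.r v ≠ 0) : v ∈ C.W := by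
  by_contra hc
  exact hv (h.out v hc)

lemma pre_nonneg {s : St V} (h : C.Inv s) (v : V) : 0 ≤ C.pre s v := by
  by_cases hv : s.r v = 0
  · rw [pre_zero hv]
  · unfold pre
    have := sg_le h (mem_W_of_ne h hv)
    exact div_nonneg (h.nn v) (by linarith)

lemma pre_ge {s : St V} (h : C.Inv s) {v : V} : s.r v ≤ C.pre s v := by
  by_cases hv : s.r v = 0
  · rw [pre_zero hv, hv]
  · unfold pre
    have h1 := sg_le h (mem_W_of_ne h hv)
    have h2 := sg_nonneg h v
    have h3 := h.nn v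
    rw [le_div_iff₀ (by linarith)]
    nlinarith

lemma pre_le {s : St V} (h : C.Inv s) {v : V} : C.pre s v ≤ 4 / 3 * s.r v := by
  by_cases hv : s.r v = 0
  · rw [pre_zero hv, hv]; simp
  · unfold pre
    have h1 := sg_le h (mem_W_of_ne h hv)
    have h2 := sg_nonneg h v
    have h3 := h.nn v
    rw [div_le_iff₀ (by linarith)]
    nlinarith

lemma up_nonneg {s : St V} (h : C.Inv s) (v : V) : 0 ≤ C.up s v := by
  rw [up_eq]; exact g_nonneg (pre_nonneg h v)

lemma up_le_pre {s : St V} (h : C.Inv s) (v : V) : C.up s v ≤ C.pre s v := by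
  rw [up_eq]; exact g_le _ (pre_nonneg h v)

lemma up_ge {s : St V} (h : C.Inv s) {v : V} (hu : C.up s v ≠ 0) : C.r0 ≤ C.up s v := by
  have h1 : s.r v ≠ 0 := fun h' => hu (up_zero h')
  have h2 := h.ge v h1
  have h3 := pre_ge h (v := v)
  rw [up_eq] at *
  unfold g at *
  split_ifs at * with hc
  · linarith
  · exact absurd rfl hu

lemma inv_none {s : St V} (h : C.Inv s) : C.Inv (C.nx s none) where
  nn := fun v => up_nonneg h v
  le := fun v => g_le_rh _
  ge := fun v hv => up_ge h hv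
  out := fun v hv => up_zero (h.out v hv)
  act := fun v hv => up_zero (h.act v hv)
  sub := h.sub
  iG := h.iG
  iT := h.iT
  aG := fun v hv => h.aG v (fun h' => hv (up_zero h'))
  aT := fun v hv => h.aT v (fun h' => hv (up_zero h'))

lemma nx_some_r (s : St V) (w v : V) : (C.nx s (some w)).r v
    = if v = w ∨ w ∈ C.B s.A v then 0 else C.up s v := rfl

lemma nx_some_A (s : St V) (w : V) : (C.nx s (some w)).A = insert w s.A := rfl

lemma nx_none_r (s : St V) (v : V) : (C.nx s none).r v = C.up s v := rfl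

lemma nx_none_A (s : St V) : (C.nx s none).A = s.A := rfl

lemma inv_some {s : St V} (h : C.Inv s) {w : V} (hw : s.r w ≠ 0) : C.Inv (C.nx s (some w)) := by
  have hwW := mem_W_of_ne h hw
  have hwA : w ∉ s.A := fun h' => hw (h.act w h')
  have key : ∀ v, (C.nx s (some w)).r v ≠ 0 → v ≠ w ∧ w ∉ C.B s.A v ∧ s.r v ≠ 0 := by
    intro v hv
    rw [nx_some_r] at hv
    split_ifs at hv with hc
    · exact absurd rfl hv
    · push Not at hc
      exact ⟨hc.1, hc.2, fun h' => hv (up_zero h')⟩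
  constructor
  · intro v
    rw [nx_some_r]
    split_ifs
    · exact le_rfl
    · exact up_nonneg h v
  · intro v
    rw [nx_some_r]
    split_ifs
    · exact rh_pos.le
    · exact g_le_rh _
  · intro v hv
    rw [nx_some_r] at *
    split_ifs at * with hc
    · exact absurd rfl hv
    · exact up_ge h hv
  · intro v hv
    rw [nx_some_r]
    split_ifs
    · rfl
    · exact up_zero (h.out v hv)
  · intro v hv
    rw [nx_some_A, Finset.mem_insert] at hv
    rw [nx_some_r]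
    rcases hv with hv | hv
    · rw [if_pos (Or.inl hv)]
    · split_ifs
      · rfl
      · exact up_zero (h.act v hv)
  · rw [nx_some_A]
    exact Finset.insert_subset hwW h.sub
  · rw [nx_some_A]
    intro a ha b hb hG
    rw [Finset.mem_insert] at ha hb
    rcases ha with rfl | ha <;> rcases hb with rfl | hb
    · exact C.Gi hG rfl
    · exact h.aG a hw b hb (C.Gs hG)
    · exact h.aG b hw a ha hG
    · exact h.iG a ha b hb hG
  · rw [nx_some_A]
    intro a ha b hb c hc hT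
    rw [Finset.mem_insert] at ha hb hc
    rcases ha with rfl | ha <;> rcases hb with rfl | hb <;> rcases hc with rfl | hc
    · exact C.T1 hT rfl
    · exact C.T1 hT rfl
    · exact T13 hT rfl
    · exact h.aT a hw b hb c hc hT
    · exact T23' hT rfl
    · exact h.aT b hw a ha c hc (C.T12 hT)
    · exact h.aT c hw a ha b hb (C.T12 (C.T23 hT))
    · exact h.iT a ha b hb c hc hT
  · intro v hv a ha hG
    obtain ⟨h1, h2, h3⟩ := key v hv
    rw [nx_some_A, Finset.mem_insert] at ha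
    rcases ha with rfl | ha
    · exact h2 (mem_B.mpr ⟨hwW, Or.inl hG⟩)
    · exact h.aG v h3 a ha hG
  · intro v hv a ha b hb hT
    obtain ⟨h1, h2, h3⟩ := key v hv
    rw [nx_some_A, Finset.mem_insert] at ha hb
    rcases ha with rfl | ha <;> rcases hb with rfl | hb
    · exact T23' hT rfl
    · exact h2 (mem_B.mpr ⟨hwW, Or.inr ⟨b, hb, C.T12 hT⟩⟩)
    · exact h2 (mem_B.mpr ⟨hwW, Or.inr ⟨a, ha, C.T12 (C.T23 hT)⟩⟩)
    · exact h.aT v h3 a ha b hb hT

lemma inv_s0 : C.Inv C.s0 := by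
  have h1 : ∀ v, C.s0.r v = if v ∈ C.W then C.r0 else 0 := fun v => rfl
  have h2 : C.s0.A = ∅ := rfl
  have h3 := C.h0
  constructor
  · intro v; rw [h1]; split_ifs <;> linarith
  · intro v; rw [h1]; have := r0_le_rh (C := C); split_ifs <;> linarith
  · intro v hv; rw [h1] at *; split_ifs at * with hc
    · exact le_rfl
    · exact absurd rfl hv
  · intro v hv; rw [h1, if_neg hv]
  · rw [h2]; simp
  · rw [h2]; simp
  · rw [h2]; simp
  · rw [h2]; simp
  · rw [h2]; simp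
  · rw [h2]; simp

/-! ### the transition operator -/

lemma P_mono {f f' : St V → ℝ} {s : St V} (h : C.Inv s) (hf : ∀ s', C.Inv s' → f s' ≤ f' s') :
    C.P f s ≤ C.P f' s := by
  unfold P
  have h1 := sum_r_le h
  refine add_le_add ?_ (Finset.sum_le_sum fun u _ => ?_)
  · exact mul_le_mul_of_nonneg_left (hf _ (inv_none h)) (by linarith)
  · by_cases hu : s.r u = 0
    · rw [hu]; simp
    · exact mul_le_mul_of_nonneg_left (hf _ (inv_some h hu)) (h.nn u)

lemma P_add (f f' : St V → ℝ) (s : St V) : C.P (fun s => f s + f' s) s = C.P f s + C.P f' s := by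
  unfold P
  have : ∑ u ∈ C.W, s.r u * (f (C.nx s (some u)) + f' (C.nx s (some u)))
      = ∑ u ∈ C.W, s.r u * f (C.nx s (some u)) + ∑ u ∈ C.W, s.r u * f' (C.nx s (some u)) := by
    rw [← Finset.sum_add_distrib]
    exact Finset.sum_congr rfl fun u _ => by ring
  rw [this]; ring

lemma P_smul (c : ℝ) (f : St V → ℝ) (s : St V) : C.P (fun s => c * f s) s = c * C.P f s := by
  unfold P
  have : ∑ u ∈ C.W, s.r u * (c * f (C.nx s (some u)))
      = c * ∑ u ∈ C.W, s.r u * f (C.nx s (some u)) := by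
    rw [Finset.mul_sum]
    exact Finset.sum_congr rfl fun u _ => by ring
  rw [this]; ring

lemma P_const (c : ℝ) (s : St V) : C.P (fun _ => c) s = c := by
  unfold P
  rw [← Finset.sum_mul]; ring

/-- iterates -/
def Pn (C : Ctx V) : ℕ → (St V → ℝ) → (St V → ℝ)
  | 0, f => f
  | n + 1, f => Pn C n (C.P f)

lemma Pn_mono (n : ℕ) : ∀ {f f' : St V → ℝ}, (∀ s', C.Inv s' → f s' ≤ f' s') →
    ∀ {s : St V}, C.Inv s → C.Pn n f s ≤ C.Pn n f' s := by
  induction n with
  | zero => intro f f' hf s h; exact hf s h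
  | succ n ih =>
    intro f f' hf s h
    exact ih (fun s' h' => P_mono h' hf) h

lemma Pn_add (n : ℕ) : ∀ (f f' : St V → ℝ) (s : St V),
    C.Pn n (fun s => f s + f' s) s = C.Pn n f s + C.Pn n f' s := by
  induction n with
  | zero => intro f f' s; rfl
  | succ n ih =>
    intro f f' s
    show C.Pn n (C.P (fun s => f s + f' s)) s = C.Pn n (C.P f) s + C.Pn n (C.P f') s
    rw [← ih]
    congr 1
    funext s
    exact P_add f f' s

lemma Pn_smul (n : ℕ) : ∀ (c : ℝ) (f : St V → ℝ) (s : St V),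
    C.Pn n (fun s => c * f s) s = c * C.Pn n f s := by
  induction n with
  | zero => intro c f s; rfl
  | succ n ih =>
    intro c f s
    show C.Pn n (C.P (fun s => c * f s)) s = c * C.Pn n (C.P f) s
    rw [← ih]
    congr 1
    funext s
    exact P_smul c f s

lemma Pn_const (n : ℕ) : ∀ (c : ℝ) (s : St V), C.Pn n (fun _ => c) s = c := by
  induction n with
  | zero => intro c s; rfl
  | succ n ih =>
    intro c s
    show C.Pn n (C.P (fun _ => c)) s = c
    rw [show C.P (fun _ => c) = fun _ => c from funext fun s => P_const c s]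
    exact ih c s

lemma Pn_sum {α : Type} (n : ℕ) (S : Finset α) (f : α → St V → ℝ) (s : St V) :
    C.Pn n (fun s => ∑ a ∈ S, f a s) s = ∑ a ∈ S, C.Pn n (f a) s := by
  induction S using Finset.induction_on with
  | empty => simp only [Finset.sum_empty]; exact Pn_const n 0 s
  | insert a S ha ih =>
    simp only [Finset.sum_insert ha]
    rw [Pn_add, ih]

lemma Pn_exists (n : ℕ) (f : St V → ℝ) (c : ℝ) {s : St V} (h : C.Inv s) (hc : c ≤ C.Pn n f s)
    (hfin : ∃ M : ℝ, ∀ s', C.Inv s' → f s' ≤ M) (ε : ℝ) (hε : 0 < ε) :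
    ∃ s', C.Inv s' ∧ c - ε ≤ f s' := by
  by_contra hcon
  push Not at hcon
  have h1 := Pn_mono (C := C) n (f := f) (f' := fun _ => c - ε)
    (fun s' h' => (hcon s' h').le) h
  rw [Pn_const] at h1
  linarith

/-- upper bound with a bad set -/
lemma P_bad {f : St V → ℝ} {s : St V} (h : C.Inv s) (K : Finset V) (hK : K ⊆ C.W) (c : ℝ)
    (h1 : f (C.nx s none) ≤ c) (h2 : ∀ u ∈ C.W, u ∉ K → f (C.nx s (some u)) ≤ c)
    (h3 : ∀ u ∈ K, f (C.nx s (some u)) ≤ 0) :
    C.P f s ≤ (1 - ∑ u ∈ K, s.r u) * c := by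
  unfold P
  have h4 := sum_r_le h
  have e1 : ∑ u ∈ C.W, s.r u = ∑ u ∈ C.W \ K, s.r u + ∑ u ∈ K, s.r u :=
    (Finset.sum_sdiff hK).symm
  have e2 : ∑ u ∈ C.W, s.r u * f (C.nx s (some u)) ≤ (∑ u ∈ C.W \ K, s.r u) * c := by
    rw [← Finset.sum_sdiff hK, Finset.sum_mul]
    have e3 : ∑ u ∈ K, s.r u * f (C.nx s (some u)) ≤ 0 := by
      refine Finset.sum_nonpos fun u hu => ?_
      exact mul_nonpos_of_nonneg_of_nonpos (h.nn u) (h3 u hu)
    have e4 : ∑ u ∈ C.W \ K, s.r u * f (C.nx s (some u)) ≤ ∑ u ∈ C.W \ K, s.r u * c := by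
      refine Finset.sum_le_sum fun u hu => ?_
      rw [Finset.mem_sdiff] at hu
      exact mul_le_mul_of_nonneg_left (h2 u hu.1 hu.2) (h.nn u)
    linarith
  have e5 : (1 - ∑ u ∈ C.W, s.r u) * f (C.nx s none) ≤ (1 - ∑ u ∈ C.W, s.r u) * c :=
    mul_le_mul_of_nonneg_left h1 (by linarith)
  have e6 : (1 - ∑ u ∈ K, s.r u) * c
      = (1 - ∑ u ∈ C.W, s.r u) * c + (∑ u ∈ C.W \ K, s.r u) * c := by rw [e1]; ring
  linarith

lemma one_sub_sum_le_prod {α : Type} (S : Finset α) (x : α → ℝ) (h0 : ∀ a ∈ S, 0 ≤ x a)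
    (h1 : ∀ a ∈ S, x a ≤ 1) : 1 - ∑ a ∈ S, x a ≤ ∏ a ∈ S, (1 - x a) ∧
      0 ≤ ∏ a ∈ S, (1 - x a) ∧ ∏ a ∈ S, (1 - x a) ≤ 1 := by
  induction S using Finset.induction_on with
  | empty => simp
  | insert a S ha ih =>
    rw [Finset.sum_insert ha, Finset.prod_insert ha]
    obtain ⟨i1, i2, i3⟩ := ih (fun b hb => h0 b (Finset.mem_insert_of_mem hb))
      (fun b hb => h1 b (Finset.mem_insert_of_mem hb))
    have a0 := h0 a (Finset.mem_insert_self _ _)
    have a1 := h1 a (Finset.mem_insert_self _ _)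
    refine ⟨?_, ?_, ?_⟩
    · nlinarith
    · exact mul_nonneg (by linarith) i2
    · nlinarith

/-- the product functional -/
def pr (S : Finset V) (s : St V) : ℝ := ∏ v ∈ S, s.r v

def DisA (C : Ctx V) (A S : Finset V) : Prop :=
  ∀ u ∈ S, ∀ v ∈ S, u ≠ v → u ∉ A → v ∉ A → Disjoint (C.B A u) (C.B A v)

lemma nx_r_le {s : St V} (h : C.Inv s) (w : V) (v : V) :
    (C.nx s (some w)).r v ≤ C.pre s v := by
  rw [nx_some_r]
  split_ifs
  · exact pre_nonneg h v
  · exact up_le_pre h v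

lemma lemA {s : St V} (h : C.Inv s) (S : Finset V) (hD : C.DisA s.A S) :
    C.P (pr S) s ≤ pr S s := by
  by_cases hz : ∃ v ∈ S, s.r v = 0
  · obtain ⟨v, hv, hz⟩ := hz
    have e0 : pr S s = 0 := Finset.prod_eq_zero hv hz
    have e1 : pr S (C.nx s none) = 0 := Finset.prod_eq_zero hv (by rw [nx_none_r]; exact up_zero hz)
    have e2 : ∀ w, pr S (C.nx s (some w)) = 0 := fun w =>
      Finset.prod_eq_zero hv (by rw [nx_some_r, up_zero hz]; simp)
    unfold P
    rw [e0, e1]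
    simp [e2]
  push Not at hz
  have hSW : ∀ v ∈ S, v ∈ C.W := fun v hv => mem_W_of_ne h (hz v hv)
  have hSA : ∀ v ∈ S, v ∉ s.A := fun v hv h' => hz v hv (h.act v h')
  have hsum : ∑ u ∈ S.biUnion (C.B s.A), s.r u = ∑ v ∈ S, C.sg s v := by
    rw [Finset.sum_biUnion]
    · rfl
    · intro u hu v hv huv
      exact hD u hu v hv huv (hSA u hu) (hSA v hv)
  have hpre : 0 ≤ ∏ v ∈ S, C.pre s v := Finset.prod_nonneg fun v _ => pre_nonneg h v
  have h1 := P_bad (f := pr S) h (S.biUnion (C.B s.A)) (by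
    intro u hu
    rw [Finset.mem_biUnion] at hu
    obtain ⟨v, hv, hu⟩ := hu
    exact (mem_B.mp hu).1) (∏ v ∈ S, C.pre s v)
    (Finset.prod_le_prod (fun v _ => (inv_none h).nn v) (fun v _ => up_le_pre h v))
    (by
      intro w hw hwK
      by_cases hw0 : ∃ v ∈ S, (C.nx s (some w)).r v = 0
      · obtain ⟨v, hv, hv0⟩ := hw0
        have : pr S (C.nx s (some w)) = 0 := Finset.prod_eq_zero hv hv0
        rw [this]; exact hpre
      · refine Finset.prod_le_prod (fun v hv => ?_) (fun v _ => nx_r_le h w v)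
        rw [nx_some_r]
        split_ifs
        · exact le_rfl
        · exact up_nonneg h v)
    (by
      intro w hw
      rw [Finset.mem_biUnion] at hw
      obtain ⟨v, hv, hw⟩ := hw
      have : pr S (C.nx s (some w)) = 0 := Finset.prod_eq_zero hv (by
        rw [nx_some_r, if_pos (Or.inr hw)])
      rw [this])
  refine h1.trans ?_
  rw [hsum]
  have h2 := (one_sub_sum_le_prod S (C.sg s) (fun v hv => sg_nonneg h v)
    (fun v hv => (sg_le h (hSW v hv)).trans (by norm_num))).1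
  calc (1 - ∑ v ∈ S, C.sg s v) * ∏ v ∈ S, C.pre s v
      ≤ (∏ v ∈ S, (1 - C.sg s v)) * ∏ v ∈ S, C.pre s v := mul_le_mul_of_nonneg_right h2 hpre
    _ = ∏ v ∈ S, ((1 - C.sg s v) * C.pre s v) := by rw [Finset.prod_mul_distrib]
    _ = pr S s := by
        unfold pr
        refine Finset.prod_congr rfl fun v hv => ?_
        have h9 : (1 - C.sg s v) ≠ 0 := by
          have := sg_le h (hSW v hv)
          linarith
        unfold pre
        exact mul_div_cancel₀ _ h9

/-- indicator times product functional -/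
def hh (A1 S : Finset V) (s : St V) : ℝ := (∏ x ∈ A1, ind (x ∈ s.A)) * pr S s

lemma prod_ind_nonneg (A1 A : Finset V) : 0 ≤ ∏ x ∈ A1, ind (x ∈ A) :=
  Finset.prod_nonneg fun _ _ => ind_nonneg _

lemma prod_ind_insert (A1 A : Finset V) (w : V) :
    ∏ x ∈ A1, ind (x ∈ insert w A) ≤ ∏ x ∈ A1, ind (x ∈ A)
      + ∑ x ∈ A1, ind (w = x) * ∏ y ∈ A1.erase x, ind (y ∈ A) := by
  have n1 := prod_ind_nonneg A1 A
  have n2 : ∀ x ∈ A1, 0 ≤ ind (w = x) * ∏ y ∈ A1.erase x, ind (y ∈ A) := fun x _ =>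
    mul_nonneg (ind_nonneg _) (prod_ind_nonneg _ _)
  by_cases hall : ∀ x ∈ A1, x ∈ insert w A
  · have e1 : ∏ x ∈ A1, ind (x ∈ insert w A) = 1 :=
      Finset.prod_eq_one fun x hx => ind_pos (hall x hx)
    rw [e1]
    by_cases hw : w ∈ A1
    · have h1 := Finset.single_le_sum n2 hw
      have e2 : ∏ y ∈ A1.erase w, ind (y ∈ A) = 1 := by
        refine Finset.prod_eq_one fun y hy => ind_pos ?_
        rw [Finset.mem_erase] at hy
        exact (Finset.mem_insert.mp (hall y hy.2)).resolve_left hy.1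
      rw [e2, ind_pos rfl] at h1
      linarith
    · have e2 : ∏ x ∈ A1, ind (x ∈ A) = 1 := by
        refine Finset.prod_eq_one fun y hy => ind_pos ?_
        refine (Finset.mem_insert.mp (hall y hy)).resolve_left ?_
        rintro rfl; exact hw hy
      have := Finset.sum_nonneg n2
      linarith
  · push Not at hall
    obtain ⟨x, hx, hx'⟩ := hall
    have e1 : ∏ x ∈ A1, ind (x ∈ insert w A) = 0 := Finset.prod_eq_zero hx (ind_neg hx')
    rw [e1]
    have := Finset.sum_nonneg n2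
    linarith

lemma pr_nx_le {s : St V} (h : C.Inv s) {S : Finset V} (hS : S.card ≤ 2) (w : V)
    (hw : ∀ v, 0 ≤ (C.nx s (some w)).r v) :
    pr S (C.nx s (some w)) ≤ 2 * pr S s := by
  have h1 : pr S (C.nx s (some w)) ≤ ∏ v ∈ S, (4 / 3 * s.r v) :=
    Finset.prod_le_prod (fun v _ => hw v) (fun v _ => (nx_r_le h w v).trans (pre_le h))
  rw [Finset.prod_mul_distrib, Finset.prod_const] at h1
  have h2 : 0 ≤ pr S s := Finset.prod_nonneg fun v _ => h.nn v
  have h3 : (4 / 3 : ℝ) ^ S.card ≤ 2 := by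
    calc (4 / 3 : ℝ) ^ S.card ≤ (4 / 3 : ℝ) ^ 2 := pow_le_pow_right₀ (by norm_num) hS
      _ ≤ 2 := by norm_num
  have h4 : ((4 / 3 : ℝ) ^ S.card) * pr S s ≤ 2 * pr S s := mul_le_mul_of_nonneg_right h3 h2
  unfold pr at *
  linarith

lemma nx_some_nonneg {s : St V} (h : C.Inv s) (w v : V) : 0 ≤ (C.nx s (some w)).r v := by
  rw [nx_some_r]
  split_ifs
  · exact le_rfl
  · exact up_nonneg h v

lemma lemC {s : St V} (h : C.Inv s) (A1 S : Finset V) (hd : Disjoint A1 S)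
    (hD : C.DisA s.A S) (hc : A1 = ∅ ∨ S.card ≤ 2) :
    C.P (hh A1 S) s ≤ hh A1 S s + 2 * ∑ x ∈ A1, hh (A1.erase x) (insert x S) s := by
  have hA := lemA h S hD
  have n0 := prod_ind_nonneg A1 s.A
  have hpr : ∀ w, 0 ≤ pr S (C.nx s (some w)) := fun w =>
    Finset.prod_nonneg fun v _ => nx_some_nonneg h w v
  have hprs : 0 ≤ pr S s := Finset.prod_nonneg fun v _ => h.nn v
  -- pointwise
  have h1 : ∀ w, hh A1 S (C.nx s (some w)) ≤ (∏ x ∈ A1, ind (x ∈ s.A)) * pr S (C.nx s (some w))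
      + ∑ x ∈ A1, ind (w = x) * ((∏ y ∈ A1.erase x, ind (y ∈ s.A)) * (2 * pr S s)) := by
    intro w
    unfold hh
    rw [nx_some_A]
    have h2 := mul_le_mul_of_nonneg_right (prod_ind_insert A1 s.A w) (hpr w)
    rw [add_mul, Finset.sum_mul] at h2
    refine h2.trans (add_le_add le_rfl (Finset.sum_le_sum fun x hx => ?_))
    have hS : S.card ≤ 2 := by
      rcases hc with hc | hc
      · rw [hc] at hx; simp at hx
      · exact hc
    have h3 := pr_nx_le h hS w (nx_some_nonneg h w)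
    rw [mul_assoc]
    apply mul_le_mul_of_nonneg_left _ (ind_nonneg _)
    exact mul_le_mul_of_nonneg_left h3 (prod_ind_nonneg _ _)
  have e1 : C.P (hh A1 S) s ≤ (∏ x ∈ A1, ind (x ∈ s.A)) * C.P (pr S) s
      + ∑ u ∈ C.W, s.r u * ∑ x ∈ A1, ind (u = x) *
          ((∏ y ∈ A1.erase x, ind (y ∈ s.A)) * (2 * pr S s)) := by
    unfold P
    have e2 : ∑ u ∈ C.W, s.r u * hh A1 S (C.nx s (some u))
        ≤ (∏ x ∈ A1, ind (x ∈ s.A)) * ∑ u ∈ C.W, s.r u * pr S (C.nx s (some u))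
        + ∑ u ∈ C.W, s.r u * ∑ x ∈ A1, ind (u = x) *
          ((∏ y ∈ A1.erase x, ind (y ∈ s.A)) * (2 * pr S s)) := by
      rw [Finset.mul_sum, ← Finset.sum_add_distrib]
      refine Finset.sum_le_sum fun u _ => ?_
      have := mul_le_mul_of_nonneg_left (h1 u) (h.nn u)
      linarith
    have e3 : hh A1 S (C.nx s none) = (∏ x ∈ A1, ind (x ∈ s.A)) * pr S (C.nx s none) := rfl
    rw [e3]
    linarith
  have e4 : ∑ u ∈ C.W, s.r u * ∑ x ∈ A1, ind (u = x) *
          ((∏ y ∈ A1.erase x, ind (y ∈ s.A)) * (2 * pr S s))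
      ≤ 2 * ∑ x ∈ A1, hh (A1.erase x) (insert x S) s := by
    simp only [Finset.mul_sum]
    rw [Finset.sum_comm]
    refine Finset.sum_le_sum fun x hx => ?_
    have hxS : x ∉ S := Finset.disjoint_left.mp hd hx
    have e5 : hh (A1.erase x) (insert x S) s
        = (∏ y ∈ A1.erase x, ind (y ∈ s.A)) * (s.r x * pr S s) := by
      unfold hh pr
      rw [Finset.prod_insert hxS]
    rw [e5]
    have n3 : 0 ≤ (∏ y ∈ A1.erase x, ind (y ∈ s.A)) * (2 * pr S s) :=
      mul_nonneg (prod_ind_nonneg _ _) (by linarith)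
    have e6 : ∑ u ∈ C.W, s.r u * (ind (u = x) * ((∏ y ∈ A1.erase x, ind (y ∈ s.A)) * (2 * pr S s)))
        ≤ ∑ u ∈ C.W, (if u = x then s.r x * ((∏ y ∈ A1.erase x, ind (y ∈ s.A)) * (2 * pr S s))
            else 0) := by
      refine Finset.sum_le_sum fun u _ => ?_
      by_cases hux : u = x
      · rw [if_pos hux, ind_pos hux, hux]; apply le_of_eq; ring
      · rw [if_neg hux, ind_neg hux]; simp
    refine e6.trans ?_
    rw [Finset.sum_ite_eq']
    have n4 := mul_nonneg (h.nn x) n3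
    split_ifs
    · apply le_of_eq; ring
    · linarith
  have e7 : (∏ x ∈ A1, ind (x ∈ s.A)) * C.P (pr S) s ≤ hh A1 S s :=
    mul_le_mul_of_nonneg_left hA n0
  linarith

end Ctx

end

end Pool.Agent.H993R2.LT
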