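import Pool.Agent.H993R2.LT.Proc

set_option autoImplicit false
set_option linter.unusedSectionVars false
set_option linter.unusedVariables false

/-!
Iterating the process.
-/

namespace Pool.Agent.H993R2.LT

open scoped BigOperators Classical
open Pool.Agent.H993R2.TP (ind ind_nonneg ind_le_one ind_pos ind_neg ind_mono ind_and ind_or_le ind_not
  ind_exists_le ind_exists_le')

noncomputable section

def BB {V : Type} (G : V → V → Prop) (T : V → V → V → Prop) (W A : Finset V) (v : V) : Finset V :=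
  W.filter (fun u => G u v ∨ ∃ x ∈ A, T u v x)

/-- blocker sets of different vertices of `f` are disjoint -/
def DisP {V : Type} (G : V → V → Prop) (T : V → V → V → Prop) (W f : Finset V) : Prop :=
  ∀ A ⊆ W, ∀ u ∈ f, ∀ v ∈ f, u ≠ v → u ∉ A → v ∉ A → Disjoint (BB G T W A u) (BB G T W A v)

def cst (n : ℕ) : ℝ := 2 ^ n * n.factorial

lemma cst_nonneg (n : ℕ) : 0 ≤ cst n := by unfold cst; positivity

lemma cst_succ (n : ℕ) : cst (n + 1) = 2 * (n + 1) * cst n := by
  unfold cst
  rw [Nat.factorial_succ]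
  push_cast
  ring

namespace Ctx

variable {V : Type} [Fintype V] {C : Ctx V}

lemma disA_of {A f S : Finset V} (h : DisP C.G C.T C.W f) (hA : A ⊆ C.W) (hS : S ⊆ f) :
    C.DisA A S :=
  fun u hu v hv huv h1 h2 => h A hA u (hS hu) v (hS hv) huv h1 h2

lemma pr_s0_le (S : Finset V) : pr S C.s0 ≤ C.r0 ^ S.card := by
  unfold pr
  rw [← Finset.prod_const]
  refine Finset.prod_le_prod (fun v _ => inv_s0.nn v) (fun v _ => ?_)
  show (if v ∈ C.W then C.r0 else 0) ≤ C.r0
  have := C.h0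
  split_ifs <;> linarith

lemma it_pr (S : Finset V) (hD : DisP C.G C.T C.W S) (t : ℕ) :
    C.Pn t (pr S) C.s0 ≤ C.r0 ^ S.card := by
  induction t with
  | zero => exact pr_s0_le S
  | succ t ih =>
    refine le_trans ?_ ih
    show C.Pn t (C.P (pr S)) C.s0 ≤ _
    exact Pn_mono t (fun s' h' => lemA h' S (disA_of hD h'.sub (Finset.Subset.refl _))) inv_s0

lemma it_hh (Tn : ℕ) (n : ℕ) : ∀ (A1 S : Finset V), A1.card = n → A1.card + S.card ≤ 3 →
    Disjoint A1 S → DisP C.G C.T C.W (A1 ∪ S) → ∀ t ≤ Tn,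
    C.Pn t (hh A1 S) C.s0 ≤ cst n * (Tn : ℝ) ^ n * C.r0 ^ (A1.card + S.card) := by
  induction n with
  | zero =>
    intro A1 S h1 h2 hd hD t ht
    have h3 : A1 = ∅ := Finset.card_eq_zero.mp h1
    subst h3
    have e1 : (hh ∅ S : St V → ℝ) = pr S := by
      funext s; unfold hh; simp
    rw [e1]
    have := it_pr (C := C) S (by simpa using hD) t
    simpa [cst] using this
  | succ n ih =>
    intro A1 S h1 h2 hd hD t ht
    set X := 2 * ((n : ℝ) + 1) * (cst n * (Tn : ℝ) ^ n * C.r0 ^ (A1.card + S.card)) with hX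
    have hr0 := C.h0
    have hX0 : 0 ≤ X := by
      have := cst_nonneg n
      positivity
    have hne : A1.Nonempty := by
      rw [← Finset.card_pos]; omega
    have hmain : ∀ t ≤ Tn, C.Pn t (hh A1 S) C.s0 ≤ t * X := by
      intro t
      induction t with
      | zero =>
        intro _
        show hh A1 S C.s0 ≤ _
        obtain ⟨x, hx⟩ := hne
        have e1 : hh A1 S C.s0 = 0 := by
          unfold hh
          have : ∏ x ∈ A1, ind (x ∈ C.s0.A) = 0 :=
            Finset.prod_eq_zero hx (ind_neg (by show x ∉ (∅ : Finset V); simp))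
          rw [this, zero_mul]
        rw [e1]; simp
      | succ t iht =>
        intro ht
        have h3 := iht (by omega)
        show C.Pn t (C.P (hh A1 S)) C.s0 ≤ _
        have h4 : C.Pn t (C.P (hh A1 S)) C.s0 ≤ C.Pn t (fun s => hh A1 S s
            + 2 * ∑ x ∈ A1, hh (A1.erase x) (insert x S) s) C.s0 :=
          Pn_mono t (fun s' h' => lemC h' A1 S hd
            (disA_of hD h'.sub Finset.subset_union_right) (by right; omega)) inv_s0
        refine h4.trans ?_
        rw [Pn_add, Pn_smul, Pn_sum]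
        have h5 : ∑ x ∈ A1, C.Pn t (hh (A1.erase x) (insert x S)) C.s0
            ≤ ((n : ℝ) + 1) * (cst n * (Tn : ℝ) ^ n * C.r0 ^ (A1.card + S.card)) := by
          calc _ ≤ ∑ _x ∈ A1, (cst n * (Tn : ℝ) ^ n * C.r0 ^ (A1.card + S.card)) := by
                refine Finset.sum_le_sum fun x hx => ?_
                have hxS : x ∉ S := Finset.disjoint_left.mp hd hx
                have c1 : (A1.erase x).card = n := by
                  rw [Finset.card_erase_of_mem hx]; omega
                have c2 : (insert x S).card = S.card + 1 := Finset.card_insert_of_notMem hxS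
                have c3 : (A1.erase x).card + (insert x S).card = A1.card + S.card := by
                  rw [c1, c2, h1]; omega
                have c4 : A1.erase x ∪ insert x S = A1 ∪ S := by
                  ext y
                  simp only [Finset.mem_union, Finset.mem_erase, Finset.mem_insert]
                  constructor
                  · rintro (⟨_, h⟩ | h | h)
                    · exact Or.inl h
                    · rw [h]; exact Or.inl hx
                    · exact Or.inr h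
                  · rintro (h | h)
                    · by_cases hyx : y = x
                      · exact Or.inr (Or.inl hyx)
                      · exact Or.inl ⟨hyx, h⟩
                    · exact Or.inr (Or.inr h)
                have h6 := ih (A1.erase x) (insert x S) c1 (by omega) (by
                  rw [Finset.disjoint_left]
                  intro y hy hy'
                  rw [Finset.mem_erase] at hy
                  rw [Finset.mem_insert] at hy'
                  rcases hy' with hy' | hy'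
                  · exact hy.1 hy'
                  · exact Finset.disjoint_left.mp hd hy.2 hy') (by rw [c4]; exact hD) t (by omega)
                rw [c3] at h6
                exact h6
            _ = _ := by
                rw [Finset.sum_const, h1, nsmul_eq_mul]; push_cast; ring
        push_cast
        rw [hX] at h3 ⊢
        linarith
    have h7 := hmain t ht
    have h8 : (t : ℝ) * X ≤ Tn * X := by
      have : (t : ℝ) ≤ Tn := by exact_mod_cast ht
      exact mul_le_mul_of_nonneg_right this hX0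
    refine (h7.trans h8).trans (le_of_eq ?_)
    rw [hX, cst_succ, pow_succ]
    ring

/-! ### the potential of a vertex -/

def Zf (C : Ctx V) (v : V) (s : St V) : ℝ := s.r v * (1 - Real.log (s.r v / C.r0) / C.L)

lemma P_neg (f : St V → ℝ) (s : St V) : C.P (fun s => - f s) s = - C.P f s := by
  have := P_smul (C := C) (-1) f s
  simpa using this

lemma P_bad_ge {f : St V → ℝ} {s : St V} (h : C.Inv s) (K : Finset V) (hK : K ⊆ C.W) (c : ℝ)
    (h1 : c ≤ f (C.nx s none)) (h2 : ∀ u ∈ C.W, u ∉ K → c ≤ f (C.nx s (some u)))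
    (h3 : ∀ u ∈ K, 0 ≤ f (C.nx s (some u))) :
    (1 - ∑ u ∈ K, s.r u) * c ≤ C.P f s := by
  have := P_bad (f := fun s => - f s) h K hK (-c) (by simpa using h1)
    (fun u hu hu' => by simpa using h2 u hu hu') (fun u hu => by simpa using h3 u hu)
  rw [P_neg] at this
  linarith

lemma Zf_zero {s : St V} {v : V} (h : s.r v = 0) : C.Zf v s = 0 := by
  unfold Zf; rw [h, zero_mul]

lemma Zf_step {s : St V} (h : C.Inv s) (v : V) :
    C.Zf v s - (2 * (s.r v) ^ 2 + 2 / C.L * (s.r v * C.sg s v)) ≤ C.P (C.Zf v) s := by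
  have hL := C.hL
  have hr0 := C.h0
  by_cases hz : s.r v = 0
  · have e1 : C.Zf v (C.nx s none) = 0 := Zf_zero (by rw [nx_none_r]; exact up_zero hz)
    have e2 : ∀ w, C.Zf v (C.nx s (some w)) = 0 := fun w =>
      Zf_zero (by rw [nx_some_r, up_zero hz]; simp)
    unfold P
    rw [e1, Zf_zero hz, hz]
    simp [e2]
  have hvW := mem_W_of_ne h hz
  have hge := h.ge v hz
  have hle := h.le v
  have hs0 := sg_nonneg h v
  have hs1 := sg_le h hvW
  have hrh : C.rh ≤ 1 / 4 := C.hr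
  set ρ := s.r v with hρ
  set σ := C.sg s v with hσ
  set x := C.pre s v with hx
  have hρ0 : 0 < ρ := by linarith
  have h1σ : 0 < 1 - σ := by linarith
  have hxe : x = ρ / (1 - σ) := rfl
  have hx0 : 0 < x := by rw [hxe]; positivity
  have hx43 : x ≤ 4 / 3 * ρ := pre_le h
  set z := x * (1 - Real.log (x / C.r0) / C.L) with hzdef
  -- value after an update
  have hup : ∀ s' : St V, s'.r v = C.up s v → z ≤ C.Zf v s' := by
    intro s' hs'
    unfold Zf
    rw [hs', up_eq, ← hx]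
    unfold g
    split_ifs with hc
    · exact le_rfl
    · push Not at hc
      rw [zero_mul, hzdef]
      apply mul_nonpos_of_nonneg_of_nonpos hx0.le
      have h5 : C.L ≤ Real.log (x / C.r0) := by
        rw [Real.le_log_iff_exp_le (by positivity), le_div_iff₀ hr0]
        unfold rh at hc
        linarith
      have h6 : 1 ≤ Real.log (x / C.r0) / C.L := by rw [le_div_iff₀ hL]; linarith
      linarith
  have hK : insert v (C.B s.A v) ⊆ C.W := by
    intro u hu
    rw [Finset.mem_insert] at hu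
    rcases hu with rfl | hu
    · exact hvW
    · exact (mem_B.mp hu).1
  have hP := P_bad_ge (f := C.Zf v) h (insert v (C.B s.A v)) hK z
    (hup _ (nx_none_r s v))
    (by
      intro u hu huK
      rw [Finset.mem_insert] at huK
      push Not at huK
      apply hup
      rw [nx_some_r, if_neg]
      rintro (h' | h')
      · exact huK.1 h'.symm
      · exact huK.2 h')
    (by
      intro u hu
      rw [Finset.mem_insert] at hu
      have e3 : (C.nx s (some u)).r v = 0 := by
        rw [nx_some_r, if_pos]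
        rcases hu with hu | hu
        · exact Or.inl hu.symm
        · exact Or.inr hu
      rw [Zf_zero e3])
  refine le_trans ?_ hP
  have hsum : ∑ u ∈ insert v (C.B s.A v), s.r u = ρ + σ := by
    rw [Finset.sum_insert (not_mem_B s.A v)]; rfl
  rw [hsum]
  set l := Real.log (ρ / C.r0) with hl
  have hl0 : 0 ≤ l := Real.log_nonneg (by rw [le_div_iff₀ hr0]; linarith)
  have hlL : l ≤ C.L := by
    rw [hl, Real.log_le_iff_le_exp (by positivity), div_le_iff₀ hr0]
    unfold rh at hle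
    linarith
  set μ := -Real.log (1 - σ) with hμ
  have hμ0 : 0 ≤ μ := by
    have := Real.log_nonpos h1σ.le (by linarith)
    linarith
  have hμ1 : μ ≤ 2 * σ := by
    have h5 := Real.one_sub_inv_le_log_of_pos h1σ
    have h6 : (1 - σ)⁻¹ - 1 ≤ 2 * σ := by
      rw [inv_eq_one_div, sub_le_iff_le_add, div_le_iff₀ h1σ]
      nlinarith
    linarith
  have hlog : Real.log (x / C.r0) = l + μ := by
    have e4 : x / C.r0 = (ρ / C.r0) / (1 - σ) := by rw [hxe]; field_simp
    rw [e4, Real.log_div (by positivity) h1σ.ne', hl, hμ]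
    ring
  have hZ : C.Zf v s = ρ * (1 - l / C.L) := rfl
  rw [hZ, hzdef, hlog]
  have e5 : (1 - (ρ + σ)) * (x * (1 - (l + μ) / C.L)) = ρ * (1 - x) * (1 - l / C.L)
      - ρ * (1 - x) * (μ / C.L) := by
    have e6 : (1 - (ρ + σ)) * x = ρ * (1 - x) := by
      rw [hxe]; field_simp; ring
    calc (1 - (ρ + σ)) * (x * (1 - (l + μ) / C.L)) = ((1 - (ρ + σ)) * x) * (1 - (l + μ) / C.L) := by
          ring
      _ = _ := by rw [e6]; ring
  rw [e5]
  set a := 1 - l / C.L with ha
  have ha0 : 0 ≤ a := by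
    have : l / C.L ≤ 1 := by rw [div_le_one hL]; exact hlL
    linarith
  have ha1 : a ≤ 1 := by
    have : 0 ≤ l / C.L := by positivity
    linarith
  set b := μ / C.L with hb
  have hb0 : 0 ≤ b := by positivity
  have hb1 : b ≤ 2 * σ / C.L := div_le_div_of_nonneg_right hμ1 hL.le
  have hx1 : x ≤ 1 := by linarith
  have g1 : ρ * x * a ≤ 2 * ρ ^ 2 := by
    calc ρ * x * a ≤ ρ * x * 1 := mul_le_mul_of_nonneg_left ha1 (by positivity)
      _ ≤ ρ * (2 * ρ) * 1 := by
          have : x ≤ 2 * ρ := by linarith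
          have := mul_le_mul_of_nonneg_left this hρ0.le
          linarith
      _ = _ := by ring
  have g2 : ρ * (1 - x) * b ≤ 2 / C.L * (ρ * σ) := by
    calc ρ * (1 - x) * b ≤ ρ * 1 * b := by
          apply mul_le_mul_of_nonneg_right _ hb0
          apply mul_le_mul_of_nonneg_left _ hρ0.le
          linarith
      _ ≤ ρ * 1 * (2 * σ / C.L) := mul_le_mul_of_nonneg_left hb1 (by positivity)
      _ = _ := by ring
  nlinarith

lemma Zf_le {s : St V} (h : C.Inv s) (v : V) : C.Zf v s ≤ s.r v := by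
  have hL := C.hL
  have hr0 := C.h0
  by_cases hz : s.r v = 0
  · rw [Zf_zero hz, hz]
  have hge := h.ge v hz
  have hl0 : 0 ≤ Real.log (s.r v / C.r0) := Real.log_nonneg (by rw [le_div_iff₀ hr0]; linarith)
  have h2 : 0 ≤ Real.log (s.r v / C.r0) / C.L := by positivity
  unfold Zf
  have := h.nn v
  nlinarith

lemma Zf_s0 {v : V} (hv : v ∈ C.W) : C.Zf v C.s0 = C.r0 := by
  have e : C.s0.r v = C.r0 := by
    show (if v ∈ C.W then C.r0 else 0) = C.r0
    rw [if_pos hv]
  unfold Zf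
  rw [e, div_self C.h0.ne', Real.log_one]
  ring

/-- the error functional -/
def ef (C : Ctx V) (v : V) (s : St V) : ℝ := 2 * (s.r v) ^ 2 + 2 / C.L * (s.r v * C.sg s v)

structure Good (C : Ctx V) : Prop where
  dG : ∀ u ∈ C.W, ∀ v ∈ C.W, C.G u v → DisP C.G C.T C.W {u, v}
  dT : ∀ u ∈ C.W, ∀ v ∈ C.W, ∀ x ∈ C.W, C.T u v x → DisP C.G C.T C.W {u, v, x}

def eta (C : Ctx V) (Tn : ℕ) : ℝ :=
  2 * C.rh * C.r0 + 2 / C.L * (C.Δ * C.r0 ^ 2 + C.d2 * (2 * Tn * C.r0 ^ 3))

lemma disP_single (v : V) : DisP C.G C.T C.W {v} := by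
  intro A _ u hu w hw huw
  rw [Finset.mem_singleton] at hu hw
  exact absurd (hu.trans hw.symm) huw

lemma it_ef (hG : C.Good) {v : V} (hv : v ∈ C.W) (Tn t : ℕ) (ht : t ≤ Tn) :
    C.Pn t (C.ef v) C.s0 ≤ C.eta Tn := by
  have hL := C.hL
  have hr0 := C.h0
  have hrh := rh_pos (C := C)
  have h1 : C.Pn t (C.ef v) C.s0 ≤ C.Pn t (fun s => 2 * C.rh * pr {v} s + 2 / C.L *
      (∑ u ∈ C.W, ind (C.G u v) * pr {u, v} s
        + ∑ u ∈ C.W, ∑ x ∈ C.W, ind (C.T u v x) * hh {x} {u, v} s)) C.s0 := by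
    apply Pn_mono t _ inv_s0
    intro s h
    unfold ef
    have n0 := h.nn v
    have e1 : pr {v} s = s.r v := by unfold pr; simp
    have e2 : ∀ u, ind (C.G u v) * pr {u, v} s = s.r v * (ind (C.G u v) * s.r u) := by
      intro u
      by_cases hg : C.G u v
      · have := C.Gi hg
        unfold pr
        rw [Finset.prod_pair this]; ring
      · rw [ind_neg hg]; ring
    have e3 : ∀ u x, ind (C.T u v x) * hh {x} {u, v} s
        = s.r v * (ind (C.T u v x) * (ind (x ∈ s.A) * s.r u)) := by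
      intro u x
      by_cases hg : C.T u v x
      · have := C.T1 hg
        unfold hh pr
        rw [Finset.prod_pair this, Finset.prod_singleton]; ring
      · rw [ind_neg hg]; ring
    have h2 := sg_le_sum h v
    have h3 := mul_le_mul_of_nonneg_left h2 n0
    rw [mul_add, Finset.mul_sum, Finset.mul_sum] at h3
    have e4 : ∑ u ∈ C.W, s.r v * ∑ x ∈ C.W, ind (C.T u v x) * (ind (x ∈ s.A) * s.r u)
        = ∑ u ∈ C.W, ∑ x ∈ C.W, ind (C.T u v x) * hh {x} {u, v} s := by
      refine Finset.sum_congr rfl fun u _ => ?_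
      rw [Finset.mul_sum]
      exact Finset.sum_congr rfl fun x _ => (e3 u x).symm
    have e5 : ∑ u ∈ C.W, s.r v * (ind (C.G u v) * s.r u)
        = ∑ u ∈ C.W, ind (C.G u v) * pr {u, v} s :=
      Finset.sum_congr rfl fun u _ => (e2 u).symm
    rw [e4, e5] at h3
    have h4 : 2 * (s.r v) ^ 2 ≤ 2 * C.rh * pr {v} s := by
      rw [e1]
      have := h.le v
      nlinarith
    have h5 : 2 / C.L * (s.r v * C.sg s v) ≤ 2 / C.L * (∑ u ∈ C.W, ind (C.G u v) * pr {u, v} s
        + ∑ u ∈ C.W, ∑ x ∈ C.W, ind (C.T u v x) * hh {x} {u, v} s) :=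
      mul_le_mul_of_nonneg_left h3 (by positivity)
    linarith
  refine h1.trans ?_
  rw [Pn_add t (fun s => 2 * C.rh * pr {v} s) (fun s => 2 / C.L *
      (∑ u ∈ C.W, ind (C.G u v) * pr {u, v} s
        + ∑ u ∈ C.W, ∑ x ∈ C.W, ind (C.T u v x) * hh {x} {u, v} s)),
    Pn_smul t (2 * C.rh) (pr {v}),
    Pn_smul t (2 / C.L) (fun s => ∑ u ∈ C.W, ind (C.G u v) * pr {u, v} s
        + ∑ u ∈ C.W, ∑ x ∈ C.W, ind (C.T u v x) * hh {x} {u, v} s),
    Pn_add t (fun s => ∑ u ∈ C.W, ind (C.G u v) * pr {u, v} s)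
      (fun s => ∑ u ∈ C.W, ∑ x ∈ C.W, ind (C.T u v x) * hh {x} {u, v} s),
    Pn_sum t C.W (fun u s => ind (C.G u v) * pr {u, v} s),
    Pn_sum t C.W (fun u s => ∑ x ∈ C.W, ind (C.T u v x) * hh {x} {u, v} s)]
  unfold eta
  have k1 : C.Pn t (pr {v}) C.s0 ≤ C.r0 := by
    have := it_pr (C := C) {v} (disP_single v) t
    simpa using this
  have k2 : ∑ u ∈ C.W, C.Pn t (fun s => ind (C.G u v) * pr {u, v} s) C.s0 ≤ C.Δ * C.r0 ^ 2 := by
    calc _ ≤ ∑ u ∈ C.W, ind (C.G u v) * C.r0 ^ 2 := by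
          refine Finset.sum_le_sum fun u hu => ?_
          rw [Pn_smul t (ind (C.G u v)) (pr {u, v})]
          by_cases hg : C.G u v
          · apply mul_le_mul_of_nonneg_left _ (ind_nonneg _)
            have := it_pr (C := C) {u, v} (hG.dG u hu v hv hg) t
            rwa [Finset.card_pair (C.Gi hg)] at this
          · rw [ind_neg hg]; simp
      _ = (∑ u ∈ C.W, ind (C.G u v)) * C.r0 ^ 2 := by rw [Finset.sum_mul]
      _ ≤ _ := mul_le_mul_of_nonneg_right (C.hΔ v hv) (by positivity)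
  have k3 : ∑ u ∈ C.W, C.Pn t (fun s => ∑ x ∈ C.W, ind (C.T u v x) * hh {x} {u, v} s) C.s0
      ≤ C.d2 * (2 * Tn * C.r0 ^ 3) := by
    calc _ ≤ ∑ u ∈ C.W, ∑ x ∈ C.W, ind (C.T u v x) * (2 * Tn * C.r0 ^ 3) := by
          refine Finset.sum_le_sum fun u hu => ?_
          rw [Pn_sum t C.W (fun x s => ind (C.T u v x) * hh {x} {u, v} s)]
          refine Finset.sum_le_sum fun x hx => ?_
          rw [Pn_smul t (ind (C.T u v x)) (hh {x} {u, v})]
          by_cases hg : C.T u v x
          · apply mul_le_mul_of_nonneg_left _ (ind_nonneg _)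
            have c1 : ({u, v} : Finset V).card = 2 := Finset.card_pair (C.T1 hg)
            have c2 : ({x} : Finset V).card = 1 := Finset.card_singleton x
            have hd : Disjoint ({x} : Finset V) {u, v} := by
              rw [Finset.disjoint_singleton_left]
              simp only [Finset.mem_insert, Finset.mem_singleton, not_or]
              exact ⟨(T13 hg).symm, (T23' hg).symm⟩
            have hD : DisP C.G C.T C.W ({x} ∪ {u, v}) := by
              have : ({x} ∪ {u, v} : Finset V) = {u, v, x} := by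
                ext y; simp only [Finset.mem_union, Finset.mem_insert, Finset.mem_singleton]; tauto
              rw [this]
              exact hG.dT u hu v hv x hx hg
            have := it_hh (C := C) Tn 1 {x} {u, v} c2 (by omega) hd hD t ht
            rw [c1, c2] at this
            simpa [cst] using this
          · rw [ind_neg hg]; simp
      _ = (∑ u ∈ C.W, ∑ x ∈ C.W, ind (C.T u v x)) * (2 * Tn * C.r0 ^ 3) := by
          rw [Finset.sum_mul]
          refine Finset.sum_congr rfl fun u _ => ?_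
          rw [Finset.sum_mul]
      _ ≤ _ := mul_le_mul_of_nonneg_right (C.hd v hv) (by positivity)
  have k4 : 2 * C.rh * C.Pn t (pr {v}) C.s0 ≤ 2 * C.rh * C.r0 :=
    mul_le_mul_of_nonneg_left k1 (by positivity)
  have k5 : 2 / C.L * (∑ u ∈ C.W, C.Pn t (fun s => ind (C.G u v) * pr {u, v} s) C.s0
      + ∑ u ∈ C.W, C.Pn t (fun s => ∑ x ∈ C.W, ind (C.T u v x) * hh {x} {u, v} s) C.s0)
      ≤ 2 / C.L * (C.Δ * C.r0 ^ 2 + C.d2 * (2 * Tn * C.r0 ^ 3)) :=
    mul_le_mul_of_nonneg_left (add_le_add k2 k3) (by positivity)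
  linarith

lemma it_Zf (hG : C.Good) {v : V} (hv : v ∈ C.W) (Tn : ℕ) : ∀ t ≤ Tn,
    C.r0 - t * C.eta Tn ≤ C.Pn t (C.Zf v) C.s0 := by
  intro t
  induction t with
  | zero =>
    intro _
    show _ ≤ C.Zf v C.s0
    rw [Zf_s0 hv]; simp
  | succ t ih =>
    intro ht
    have h1 := ih (by omega)
    have h2 := it_ef hG hv Tn t (by omega)
    show _ ≤ C.Pn t (C.P (C.Zf v)) C.s0
    have h3 : C.Pn t (fun s => C.Zf v s + (-1) * C.ef v s) C.s0 ≤ C.Pn t (C.P (C.Zf v)) C.s0 :=
      Pn_mono t (fun s' h' => by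
        have := Zf_step h' v
        unfold ef
        linarith) inv_s0
    rw [Pn_add t (C.Zf v) (fun s => (-1) * C.ef v s), Pn_smul] at h3
    push_cast
    linarith

def cA (s : St V) : ℝ := (s.A.card : ℝ)

lemma P_cA {s : St V} (h : C.Inv s) : C.P cA s = cA s + ∑ u ∈ C.W, s.r u := by
  unfold P
  have e1 : cA (C.nx s none) = cA s := rfl
  have e2 : ∑ u ∈ C.W, s.r u * cA (C.nx s (some u)) = ∑ u ∈ C.W, s.r u * (cA s + 1) := by
    refine Finset.sum_congr rfl fun u _ => ?_
    by_cases hu : s.r u = 0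
    · rw [hu]; simp
    · have : u ∉ s.A := fun h' => hu (h.act u h')
      congr 1
      unfold cA
      rw [nx_some_A, Finset.card_insert_of_notMem this]
      push_cast; ring
  rw [e1, e2, ← Finset.sum_mul]
  ring

lemma it_cA (hG : C.Good) (Tn : ℕ) : ∀ t ≤ Tn,
    t * ((C.W.card : ℝ) * (C.r0 - Tn * C.eta Tn)) ≤ C.Pn t cA C.s0 := by
  have hη : 0 ≤ C.eta Tn := by
    have h1 := C.hL
    have h2 := C.h0
    have h3 := rh_pos (C := C)
    have h4 := C.hΔ0
    have h5 := C.hd0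
    unfold eta
    positivity
  intro t
  induction t with
  | zero =>
    intro _
    show _ ≤ cA C.s0
    simp [cA]
  | succ t ih =>
    intro ht
    have h1 := ih (by omega)
    show _ ≤ C.Pn t (C.P cA) C.s0
    have h2 : C.Pn t (fun s => cA s + ∑ u ∈ C.W, C.Zf u s) C.s0 ≤ C.Pn t (C.P cA) C.s0 :=
      Pn_mono t (fun s' h' => by
        rw [P_cA h']
        have : ∑ u ∈ C.W, C.Zf u s' ≤ ∑ u ∈ C.W, s'.r u :=
          Finset.sum_le_sum fun u _ => Zf_le h' u
        linarith) inv_s0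
    rw [Pn_add t cA (fun s => ∑ u ∈ C.W, C.Zf u s), Pn_sum t C.W (fun u s => C.Zf u s)] at h2
    have h3 : ∑ _u ∈ C.W, (C.r0 - Tn * C.eta Tn) ≤ ∑ u ∈ C.W, C.Pn t (fun s => C.Zf u s) C.s0 := by
      refine Finset.sum_le_sum fun u hu => ?_
      have h4 := it_Zf hG hu Tn t (by omega)
      have h5 : (t : ℝ) ≤ Tn := by exact_mod_cast (by omega : t ≤ Tn)
      have h6 := mul_le_mul_of_nonneg_right h5 hη
      linarith
    rw [Finset.sum_const, nsmul_eq_mul] at h3
    push_cast
    linarith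

lemma hh_empty_right (f : Finset V) (s : St V) : hh f ∅ s = ∏ x ∈ f, ind (x ∈ s.A) := by
  unfold hh pr; simp

lemma prod_ind_eq (f A : Finset V) : ∏ x ∈ f, ind (x ∈ A) = ind (f ⊆ A) := by
  by_cases h : f ⊆ A
  · rw [ind_pos h]; exact Finset.prod_eq_one fun x hx => ind_pos (h hx)
  · rw [ind_neg h]
    rw [Finset.not_subset] at h
    obtain ⟨x, hx, hx'⟩ := h
    exact Finset.prod_eq_zero hx (ind_neg hx')

theorem run (hG : C.Good) (Tn : ℕ) (F : Finset (Finset V)) (hF : ∀ f ∈ F, f.card = 3)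
    (hFD : ∀ f ∈ F, DisP C.G C.T C.W f) :
    ∃ A ⊆ C.W, (∀ a ∈ A, ∀ b ∈ A, ¬ C.G a b) ∧ (∀ a ∈ A, ∀ b ∈ A, ∀ c ∈ A, ¬ C.T a b c) ∧
      (C.W.card : ℝ) * ((Tn * C.r0) - Tn * (Tn * C.eta Tn)) - 48 * (Tn * C.r0) ^ 3 * F.card - 1
        ≤ (A.card : ℝ) - ∑ f ∈ F, ind (f ⊆ A) := by
  set fn : St V → ℝ := fun s => cA s + (-1) * ∑ f ∈ F, hh f ∅ s with hfn
  have h1 : C.Pn Tn fn C.s0 = C.Pn Tn cA C.s0 + (-1) * ∑ f ∈ F, C.Pn Tn (hh f ∅) C.s0 := by
    rw [hfn, Pn_add Tn cA (fun s => (-1) * ∑ f ∈ F, hh f ∅ s),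
      Pn_smul Tn (-1) (fun s => ∑ f ∈ F, hh f ∅ s), Pn_sum Tn F (fun f s => hh f ∅ s)]
  have h2 : ∑ f ∈ F, C.Pn Tn (hh f ∅) C.s0 ≤ 48 * (Tn * C.r0) ^ 3 * F.card := by
    calc _ ≤ ∑ _f ∈ F, 48 * (Tn * C.r0) ^ 3 := by
          refine Finset.sum_le_sum fun f hf => ?_
          have c1 := hF f hf
          have := it_hh (C := C) Tn 3 f ∅ c1 (by rw [c1]; simp) (Finset.disjoint_empty_right f)
            (by rw [Finset.union_empty]; exact hFD f hf) Tn le_rfl
          rw [c1, Finset.card_empty] at this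
          have e : cst 3 = 48 := by unfold cst; norm_num [Nat.factorial]
          rw [e] at this
          refine this.trans (le_of_eq ?_)
          ring
      _ = _ := by rw [Finset.sum_const, nsmul_eq_mul]; ring
  have h3 := it_cA hG Tn Tn le_rfl
  have h4 : (C.W.card : ℝ) * ((Tn * C.r0) - Tn * (Tn * C.eta Tn)) - 48 * (Tn * C.r0) ^ 3 * F.card
      ≤ C.Pn Tn fn C.s0 := by
    rw [h1]
    have e : (Tn : ℝ) * ((C.W.card : ℝ) * (C.r0 - Tn * C.eta Tn))
      = (C.W.card : ℝ) * ((Tn * C.r0) - Tn * (Tn * C.eta Tn)) := by ring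
    rw [e] at h3
    linarith
  obtain ⟨s, hs, hs2⟩ := Pn_exists (C := C) Tn fn _ inv_s0 h4 ⟨(C.W.card : ℝ), by
    intro s h
    rw [hfn]
    simp only
    have n1 : 0 ≤ ∑ f ∈ F, hh f ∅ s := Finset.sum_nonneg fun f _ => by
      rw [hh_empty_right]; exact prod_ind_nonneg _ _
    have n2 : cA s ≤ (C.W.card : ℝ) := by
      unfold cA
      exact_mod_cast Finset.card_le_card h.sub
    linarith⟩ 1 one_pos
  refine ⟨s.A, hs.sub, hs.iG, hs.iT, ?_⟩
  rw [hfn] at hs2
  simp only at hs2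
  have e2 : ∑ f ∈ F, hh f ∅ s = ∑ f ∈ F, ind (f ⊆ s.A) :=
    Finset.sum_congr rfl fun f _ => by rw [hh_empty_right, prod_ind_eq]
  rw [e2] at hs2
  unfold cA at hs2
  linarith

end Ctx

/-- The process theorem. -/
theorem process {V : Type} [Fintype V] (G : V → V → Prop) (T : V → V → V → Prop) (W : Finset V)
    (Gs : ∀ {x y}, G x y → G y x) (Gi : ∀ {x y}, G x y → x ≠ y)
    (T12 : ∀ {x y z}, T x y z → T y x z) (T23 : ∀ {x y z}, T x y z → T x z y)
    (T1 : ∀ {x y z}, T x y z → x ≠ y) (Δ d2 ν L : ℝ) (hν : 0 < ν) (hL : 0 < L)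
    (hΔ0 : 0 ≤ Δ) (hd0 : 0 ≤ d2)
    (hΔ : ∀ v ∈ W, ∑ u ∈ W, ind (G u v) ≤ Δ)
    (hd : ∀ v ∈ W, ∑ u ∈ W, ∑ x ∈ W, ind (T u v x) ≤ d2)
    (dG : ∀ u ∈ W, ∀ v ∈ W, G u v → DisP G T W {u, v})
    (dT : ∀ u ∈ W, ∀ v ∈ W, ∀ x ∈ W, T u v x → DisP G T W {u, v, x})
    (h1 : 2 * Real.exp L * ν ≤ 1 / 4) (h2 : 2 / L * (Δ * ν + 2 * d2 * ν ^ 2) ≤ 1 / 4)
    (F : Finset (Finset V)) (hF : ∀ f ∈ F, f.card = 3) (hFD : ∀ f ∈ F, DisP G T W f) :
    ∃ A ⊆ W, (∀ a ∈ A, ∀ b ∈ A, ¬ G a b) ∧ (∀ a ∈ A, ∀ b ∈ A, ∀ c ∈ A, ¬ T a b c) ∧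
      (W.card : ℝ) * ν / 2 - 48 * ν ^ 3 * F.card - 1 ≤ (A.card : ℝ) - ∑ f ∈ F, ind (f ⊆ A) := by
  set M : ℝ := ((W.card : ℝ) + 4 * (Δ + d2) + 4) * (ν * Real.exp L) with hM
  obtain ⟨n, hn⟩ := exists_nat_ge M
  have he : 0 < Real.exp L := Real.exp_pos L
  set Tn := n + 1 with hTn
  have hTpos : (0 : ℝ) < Tn := by rw [hTn]; positivity
  have hTM : M ≤ Tn := by rw [hTn]; push_cast; linarith
  have hc0 : (0 : ℝ) ≤ W.card := by positivity
  have hνe : 0 < ν * Real.exp L := by positivity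
  have q1 : (W.card : ℝ) * (ν / Tn * Real.exp L) ≤ 1 := by
    rw [show (W.card : ℝ) * (ν / Tn * Real.exp L) = (W.card : ℝ) * (ν * Real.exp L) / Tn by ring,
      div_le_one hTpos]
    refine le_trans ?_ hTM
    rw [hM]
    have : 0 ≤ (4 * (Δ + d2) + 4) * (ν * Real.exp L) := by positivity
    linarith
  have q2 : (Δ + d2) * (ν / Tn * Real.exp L) ≤ 1 / 4 := by
    rw [show (Δ + d2) * (ν / Tn * Real.exp L) = (Δ + d2) * (ν * Real.exp L) / Tn by ring,
      div_le_iff₀ hTpos]
    have : 0 ≤ ((W.card : ℝ) + 4) * (ν * Real.exp L) := by positivity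
    have e : M = ((W.card : ℝ) + 4) * (ν * Real.exp L) + 4 * ((Δ + d2) * (ν * Real.exp L)) := by
      rw [hM]; ring
    linarith
  have q3 : ν / Tn * Real.exp L ≤ 1 / 4 := by
    rw [show ν / Tn * Real.exp L = (ν * Real.exp L) / Tn by ring, div_le_iff₀ hTpos]
    have : 0 ≤ ((W.card : ℝ) + 4 * (Δ + d2)) * (ν * Real.exp L) := by positivity
    have e : M = ((W.card : ℝ) + 4 * (Δ + d2)) * (ν * Real.exp L) + 4 * (ν * Real.exp L) := by
      rw [hM]; ring
    linarith
  let C : Ctx V :=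
    { G := G, T := T, W := W, Gs := Gs, Gi := Gi, T12 := T12, T23 := T23, T1 := T1,
      r0 := ν / Tn, L := L, Δ := Δ, d2 := d2, h0 := by positivity, hL := hL, hΔ0 := hΔ0,
      hd0 := hd0, hΔ := hΔ, hd := hd, hsum := q1, hσ := q2, hr := q3 }
  obtain ⟨A, hAW, hA1, hA2, hA3⟩ := Ctx.run (C := C) ⟨dG, dT⟩ Tn F hF hFD
  refine ⟨A, hAW, hA1, hA2, le_trans ?_ hA3⟩
  have e1 : (Tn : ℝ) * C.r0 = ν := by
    show (Tn : ℝ) * (ν / Tn) = ν
    field_simp
  have e2 : (Tn : ℝ) * ((Tn : ℝ) * C.eta Tn) ≤ ν / 2 := by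
    have e3 : (Tn : ℝ) * ((Tn : ℝ) * C.eta Tn)
        = ν * (2 * Real.exp L * ν + 2 / L * (Δ * ν + 2 * d2 * ν ^ 2)) := by
      show (Tn : ℝ) * ((Tn : ℝ) * (2 * (ν / Tn * Real.exp L) * (ν / Tn) + 2 / L *
        (Δ * (ν / Tn) ^ 2 + d2 * (2 * Tn * (ν / Tn) ^ 3)))) = _
      field_simp
    rw [e3]
    have : 2 * Real.exp L * ν + 2 / L * (Δ * ν + 2 * d2 * ν ^ 2) ≤ 1 / 2 := by linarith
    calc ν * (2 * Real.exp L * ν + 2 / L * (Δ * ν + 2 * d2 * ν ^ 2)) ≤ ν * (1 / 2) :=
          mul_le_mul_of_nonneg_left this hν.le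
      _ = ν / 2 := by ring
  rw [e1]
  have e4 : (W.card : ℝ) * (ν / 2) ≤ (W.card : ℝ) * (ν - Tn * (Tn * C.eta Tn)) :=
    mul_le_mul_of_nonneg_left (by linarith) hc0
  have e5 : C.W = W := rfl
  rw [e5]
  linarith

end

end Pool.Agent.H993R2.LT
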