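import Pool.Agent.H993R2.LT.Struct2
import Pool.Agent.H993R2.TP.Thin

set_option autoImplicit false
set_option linter.unusedSectionVars false
set_option linter.unusedVariables false

/-!
Random sample and cleaning.
-/

namespace Pool.Agent.H993R2.LT

open scoped BigOperators Classical
open Pool.Agent.H993R2.TP (ind ind_nonneg ind_le_one ind_pos ind_neg ind_mono ind_and ind_or_le ind_not
  ind_exists_le ind_exists_le' sum_ind_le_one AT AT_mono AT_nonneg AT_add AT_sub AT_smul AT_sum AT_one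
  AT_sub_ind AT_card)

noncomputable section

variable {N : ℕ}

lemma AT_exists {ρ : ℝ} (h0 : 0 ≤ ρ) (h1 : ρ ≤ 1) (S : Finset (Fin N))
    (f : Finset (Fin N) → ℝ) : ∃ T ⊆ S, AT ρ S f ≤ f T := by
  obtain ⟨T0, hT0, hmax⟩ := Finset.exists_max_image S.powerset f ⟨∅, Finset.empty_mem_powerset S⟩
  refine ⟨T0, Finset.mem_powerset.mp hT0, ?_⟩
  have h2 : AT ρ S f ≤ AT ρ S (fun _ => f T0) :=
    AT_mono h0 h1 fun T hT => hmax T (Finset.mem_powerset.mpr hT)
  have h3 : AT ρ S (fun _ => f T0) = f T0 := by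
    have := AT_smul ρ S (f T0) (fun _ => 1)
    rw [AT_one] at this
    simpa using this
  linarith

lemma sum_mem (W : Finset (Fin N)) (f : Fin N → ℝ) :
    ∑ x ∈ W, f x = ∑ x, ind (x ∈ W) * f x := by
  rw [← Finset.sum_subset (Finset.subset_univ W)]
  · exact Finset.sum_congr rfl fun x hx => by rw [ind_pos hx, one_mul]
  · intro x _ hx
    rw [ind_neg hx, zero_mul]

lemma ind2 (W : Finset (Fin N)) (x y : Fin N) :
    ind ({x, y} ⊆ W) = ind (x ∈ W) * ind (y ∈ W) := by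
  rw [← ind_and]
  congr 1
  apply propext
  rw [Finset.insert_subset_iff, Finset.singleton_subset_iff]

lemma ind3 (W : Finset (Fin N)) (x y z : Fin N) :
    ind ({x, y, z} ⊆ W) = ind (x ∈ W) * (ind (y ∈ W) * ind (z ∈ W)) := by
  rw [← ind2, ← ind_and]
  congr 1
  apply propext
  rw [Finset.insert_subset_iff]

lemma AT_uni {p : ℝ} (L : Finset (Fin N)) :
    AT p Finset.univ (fun T => ind (L ⊆ T)) = p ^ L.card := AT_sub_ind p (Finset.subset_univ L)

theorem sample (G : Fin N → Fin N → Prop) (E : Fin N → Fin N → Fin N → Prop)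
    (Ov : Fin N → Fin N → Fin N → Fin N → Prop) (F : Finset (Finset (Fin N)))
    (p aG aT aO aF : ℝ) (hp : 0 < p) (hp1 : p ≤ 1) (haG : 0 < aG) (haT : 0 < aT) (haF : 0 < aF)
    (hG : ∑ x, ∑ y, ind (G x y) ≤ aG * N) (hGne : ∀ x y, G x y → x ≠ y)
    (hE : ∑ x, ∑ y, ∑ z, ind (E x y z) ≤ aT * N)
    (hEne : ∀ x y z, E x y z → x ≠ y ∧ x ≠ z ∧ y ≠ z)
    (hO : ∑ x, ∑ y, ∑ z, ∑ w, ind (Ov x y z w) ≤ aO * N)
    (hOne : ∀ x y z w, Ov x y z w → x ≠ y ∧ x ≠ z ∧ x ≠ w ∧ y ≠ z ∧ y ≠ w ∧ z ≠ w)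
    (hF : (F.card : ℝ) ≤ aF * N) (hF3 : ∀ f ∈ F, f.card = 3) (ho : p ^ 3 * aO ≤ 1 / 32) :
    ∃ W : Finset (Fin N), p * N / 4 ≤ W.card ∧
      (∀ v ∈ W, ∑ u ∈ W, ind (G u v) ≤ 64 * (p * aG)) ∧
      (∀ v ∈ W, ∑ u ∈ W, ∑ x ∈ W, ind (E u v x) ≤ 64 * (p ^ 2 * aT)) ∧
      (∀ x ∈ W, ∀ y ∈ W, ∀ z ∈ W, ∀ w ∈ W, ¬ Ov x y z w) ∧
      ((F.filter (fun f => f ⊆ W)).card : ℝ) ≤ 16 * (p ^ 2 * aF) * W.card := by
  set nG : Finset (Fin N) → ℝ := fun W => ∑ x, ∑ y, ind (G x y) * ind ({x, y} ⊆ W) with hnG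
  set nT : Finset (Fin N) → ℝ := fun W => ∑ x, ∑ y, ∑ z, ind (E x y z) * ind ({x, y, z} ⊆ W)
    with hnT
  set nO : Finset (Fin N) → ℝ := fun W => ∑ x, ∑ y, ∑ z, ∑ w, ind (Ov x y z w) *
    ind ({x, y, z, w} ⊆ W) with hnO
  set nF : Finset (Fin N) → ℝ := fun W => ∑ f ∈ F, ind (f ⊆ W) with hnF
  have aG' : AT p Finset.univ nG = p ^ 2 * ∑ x, ∑ y, ind (G x y) := by
    rw [hnG, AT_sum, Finset.mul_sum]
    refine Finset.sum_congr rfl fun x _ => ?_
    rw [AT_sum, Finset.mul_sum]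
    refine Finset.sum_congr rfl fun y _ => ?_
    rw [AT_smul, AT_uni]
    by_cases h : G x y
    · rw [Finset.card_pair (hGne x y h)]; ring
    · rw [ind_neg h]; ring
  have aT' : AT p Finset.univ nT = p ^ 3 * ∑ x, ∑ y, ∑ z, ind (E x y z) := by
    rw [hnT, AT_sum, Finset.mul_sum]
    refine Finset.sum_congr rfl fun x _ => ?_
    rw [AT_sum, Finset.mul_sum]
    refine Finset.sum_congr rfl fun y _ => ?_
    rw [AT_sum, Finset.mul_sum]
    refine Finset.sum_congr rfl fun z _ => ?_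
    rw [AT_smul, AT_uni]
    by_cases h : E x y z
    · obtain ⟨h1, h2, h3⟩ := hEne x y z h
      rw [Finset.card_eq_three.mpr ⟨x, y, z, h1, h2, h3, rfl⟩]; ring
    · rw [ind_neg h]; ring
  have aO' : AT p Finset.univ nO = p ^ 4 * ∑ x, ∑ y, ∑ z, ∑ w, ind (Ov x y z w) := by
    rw [hnO, AT_sum, Finset.mul_sum]
    refine Finset.sum_congr rfl fun x _ => ?_
    rw [AT_sum, Finset.mul_sum]
    refine Finset.sum_congr rfl fun y _ => ?_
    rw [AT_sum, Finset.mul_sum]
    refine Finset.sum_congr rfl fun z _ => ?_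
    rw [AT_sum, Finset.mul_sum]
    refine Finset.sum_congr rfl fun w _ => ?_
    rw [AT_smul, AT_uni]
    by_cases h : Ov x y z w
    · obtain ⟨h1, h2, h3, h4, h5, h6⟩ := hOne x y z w h
      have : ({x, y, z, w} : Finset (Fin N)).card = 4 := by
        rw [Finset.card_insert_of_notMem (by
          simp only [Finset.mem_insert, Finset.mem_singleton, not_or]; exact ⟨h1, h2, h3⟩),
          Finset.card_eq_three.mpr ⟨y, z, w, h4, h5, h6, rfl⟩]
      rw [this]; ring
    · rw [ind_neg h]; ring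
  have aF' : AT p Finset.univ nF = p ^ 3 * F.card := by
    rw [hnF, AT_sum]
    rw [Finset.sum_congr rfl (fun f hf => by rw [AT_uni, hF3 f hf]), Finset.sum_const,
      nsmul_eq_mul]
    ring
  have aC' : AT p Finset.univ (fun T : Finset (Fin N) => (T.card : ℝ)) = p * N := by
    rw [AT_card]; simp
  set cG := 1 / (8 * (p * aG)) with hcG
  set cT := 1 / (8 * (p ^ 2 * aT)) with hcT
  set cF := 1 / (8 * (p ^ 2 * aF)) with hcF
  have hN : (0 : ℝ) ≤ N := by positivity
  obtain ⟨W0, -, hW0⟩ := AT_exists (N := N) hp.le hp1 Finset.univ (fun T => (T.card : ℝ)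
    - cG * nG T - cT * nT T - cF * nF T - 4 * nO T)
  rw [AT_sub, AT_sub, AT_sub, AT_sub, AT_smul, AT_smul, AT_smul, AT_smul, aG', aT', aF', aO',
    aC'] at hW0
  have b1 : cG * (p ^ 2 * ∑ x, ∑ y, ind (G x y)) ≤ p * N / 8 := by
    calc _ ≤ cG * (p ^ 2 * (aG * N)) := by gcongr
      _ = p * N / 8 := by rw [hcG]; field_simp
  have b2 : cT * (p ^ 3 * ∑ x, ∑ y, ∑ z, ind (E x y z)) ≤ p * N / 8 := by
    calc _ ≤ cT * (p ^ 3 * (aT * N)) := by gcongr
      _ = p * N / 8 := by rw [hcT]; field_simp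
  have b3 : cF * (p ^ 3 * F.card) ≤ p * N / 8 := by
    calc _ ≤ cF * (p ^ 3 * (aF * N)) := by gcongr
      _ = p * N / 8 := by rw [hcF]; field_simp
  have b4 : 4 * (p ^ 4 * ∑ x, ∑ y, ∑ z, ∑ w, ind (Ov x y z w)) ≤ p * N / 8 := by
    calc _ ≤ 4 * (p ^ 4 * (aO * N)) := by gcongr
      _ = 4 * (p ^ 3 * aO) * (p * N) := by ring
      _ ≤ 4 * (1 / 32) * (p * N) := by gcongr
      _ = _ := by ring
  have nG0 : 0 ≤ nG W0 := Finset.sum_nonneg fun _ _ => Finset.sum_nonneg fun _ _ =>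
    mul_nonneg (ind_nonneg _) (ind_nonneg _)
  have nT0 : 0 ≤ nT W0 := Finset.sum_nonneg fun _ _ => Finset.sum_nonneg fun _ _ =>
    Finset.sum_nonneg fun _ _ => mul_nonneg (ind_nonneg _) (ind_nonneg _)
  have nO0 : 0 ≤ nO W0 := Finset.sum_nonneg fun _ _ => Finset.sum_nonneg fun _ _ =>
    Finset.sum_nonneg fun _ _ => Finset.sum_nonneg fun _ _ =>
      mul_nonneg (ind_nonneg _) (ind_nonneg _)
  have nF0 : 0 ≤ nF W0 := Finset.sum_nonneg fun _ _ => ind_nonneg _
  have cG0 : 0 < cG := by positivity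
  have cT0 : 0 < cT := by positivity
  have cF0 : 0 < cF := by positivity
  have m1 := mul_nonneg cG0.le nG0
  have m2 := mul_nonneg cT0.le nT0
  have m3 := mul_nonneg cF0.le nF0
  have hpN : 0 ≤ p * N := by positivity
  have i0 : p * N / 2 ≤ (W0.card : ℝ) := by linarith
  have i1 : cG * nG W0 ≤ W0.card := by linarith
  have i2 : cT * nT W0 ≤ W0.card := by linarith
  have i3 : cF * nF W0 ≤ W0.card := by linarith
  have i4 : 4 * nO W0 ≤ W0.card := by linarith
  set B1 := W0.filter (fun x => ∃ y ∈ W0, ∃ z ∈ W0, ∃ w ∈ W0, Ov x y z w) with hB1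
  set B2 := W0.filter (fun v => 64 * (p * aG) < ∑ u ∈ W0, ind (G u v)) with hB2
  set B3 := W0.filter (fun v => 64 * (p ^ 2 * aT) < ∑ u ∈ W0, ∑ x ∈ W0, ind (E u v x)) with hB3
  have e1 : (B1.card : ℝ) ≤ nO W0 := by
    have h1 : (B1.card : ℝ) = ∑ x ∈ W0, ind (∃ y ∈ W0, ∃ z ∈ W0, ∃ w ∈ W0, Ov x y z w) := by
      rw [hB1, Finset.card_filter]
      push_cast
      refine Finset.sum_congr rfl fun z _ => ?_
      by_cases h : ∃ y ∈ W0, ∃ z_1 ∈ W0, ∃ w ∈ W0, Ov z y z_1 w
      · rw [if_pos h, ind_pos h]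
      · rw [if_neg h, ind_neg h]
    rw [h1, sum_mem]
    refine Finset.sum_le_sum fun x _ => ?_
    by_cases hx : x ∈ W0
    swap
    · rw [ind_neg hx, zero_mul]
      exact Finset.sum_nonneg fun _ _ => Finset.sum_nonneg fun _ _ =>
        Finset.sum_nonneg fun _ _ => mul_nonneg (ind_nonneg _) (ind_nonneg _)
    rw [ind_pos hx, one_mul]
    by_cases hex : ∃ y ∈ W0, ∃ z ∈ W0, ∃ w ∈ W0, Ov x y z w
    swap
    · rw [ind_neg hex]
      exact Finset.sum_nonneg fun _ _ => Finset.sum_nonneg fun _ _ =>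
        Finset.sum_nonneg fun _ _ => mul_nonneg (ind_nonneg _) (ind_nonneg _)
    · rw [ind_pos hex]
      obtain ⟨y, hy, z, hz, w, hw, hOv⟩ := hex
      have h2 : (1 : ℝ) = ind (Ov x y z w) * ind ({x, y, z, w} ⊆ W0) := by
        rw [ind_pos hOv, ind_pos, one_mul]
        intro a ha
        simp only [Finset.mem_insert, Finset.mem_singleton] at ha
        rcases ha with rfl | rfl | rfl | rfl <;> assumption
      rw [h2]
      calc ind (Ov x y z w) * ind ({x, y, z, w} ⊆ W0)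
          ≤ ∑ w, ind (Ov x y z w) * ind ({x, y, z, w} ⊆ W0) :=
            Finset.single_le_sum (f := fun w => ind (Ov x y z w) * ind ({x, y, z, w} ⊆ W0))
              (fun _ _ => mul_nonneg (ind_nonneg _) (ind_nonneg _)) (Finset.mem_univ w)
        _ ≤ ∑ z, ∑ w, ind (Ov x y z w) * ind ({x, y, z, w} ⊆ W0) :=
            Finset.single_le_sum (f := fun z => ∑ w, ind (Ov x y z w) * ind ({x, y, z, w} ⊆ W0))
              (fun _ _ => Finset.sum_nonneg fun _ _ => mul_nonneg (ind_nonneg _) (ind_nonneg _))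
              (Finset.mem_univ z)
        _ ≤ ∑ y, ∑ z, ∑ w, ind (Ov x y z w) * ind ({x, y, z, w} ⊆ W0) :=
            Finset.single_le_sum
              (f := fun y => ∑ z, ∑ w, ind (Ov x y z w) * ind ({x, y, z, w} ⊆ W0))
              (fun _ _ => Finset.sum_nonneg fun _ _ => Finset.sum_nonneg fun _ _ =>
                mul_nonneg (ind_nonneg _) (ind_nonneg _)) (Finset.mem_univ y)
  have e2 : (B2.card : ℝ) * (64 * (p * aG)) ≤ nG W0 := by
    calc (B2.card : ℝ) * (64 * (p * aG)) = ∑ _v ∈ B2, 64 * (p * aG) := by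
          rw [Finset.sum_const, nsmul_eq_mul]
      _ ≤ ∑ v ∈ B2, ∑ u ∈ W0, ind (G u v) := by
          refine Finset.sum_le_sum fun v hv => ?_
          rw [hB2, Finset.mem_filter] at hv
          exact hv.2.le
      _ ≤ ∑ v ∈ W0, ∑ u ∈ W0, ind (G u v) :=
          Finset.sum_le_sum_of_subset_of_nonneg (Finset.filter_subset _ _)
            fun _ _ _ => Finset.sum_nonneg fun _ _ => ind_nonneg _
      _ = nG W0 := by
          rw [hnG]
          simp only
          rw [Finset.sum_comm, sum_mem]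
          refine Finset.sum_congr rfl fun x _ => ?_
          rw [sum_mem, Finset.mul_sum]
          refine Finset.sum_congr rfl fun y _ => ?_
          rw [ind2]; ring
  have e3 : (B3.card : ℝ) * (64 * (p ^ 2 * aT)) ≤ nT W0 := by
    calc (B3.card : ℝ) * (64 * (p ^ 2 * aT)) = ∑ _v ∈ B3, 64 * (p ^ 2 * aT) := by
          rw [Finset.sum_const, nsmul_eq_mul]
      _ ≤ ∑ v ∈ B3, ∑ u ∈ W0, ∑ x ∈ W0, ind (E u v x) := by
          refine Finset.sum_le_sum fun v hv => ?_
          rw [hB3, Finset.mem_filter] at hv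
          exact hv.2.le
      _ ≤ ∑ v ∈ W0, ∑ u ∈ W0, ∑ x ∈ W0, ind (E u v x) :=
          Finset.sum_le_sum_of_subset_of_nonneg (Finset.filter_subset _ _)
            fun _ _ _ => Finset.sum_nonneg fun _ _ => Finset.sum_nonneg fun _ _ => ind_nonneg _
      _ = nT W0 := by
          rw [hnT]
          simp only
          rw [Finset.sum_comm, sum_mem]
          refine Finset.sum_congr rfl fun x _ => ?_
          rw [sum_mem, Finset.mul_sum]
          refine Finset.sum_congr rfl fun y _ => ?_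
          rw [sum_mem, Finset.mul_sum, Finset.mul_sum]
          refine Finset.sum_congr rfl fun z _ => ?_
          rw [ind3]; ring
  set W := W0 \ (B1 ∪ (B2 ∪ B3)) with hW
  have hWsub : W ⊆ W0 := Finset.sdiff_subset
  have j1 : (B1.card : ℝ) ≤ W0.card / 4 := by linarith
  have j2 : (B2.card : ℝ) ≤ W0.card / 8 := by
    have h1 : cG * ((B2.card : ℝ) * (64 * (p * aG))) ≤ W0.card :=
      (mul_le_mul_of_nonneg_left e2 cG0.le).trans i1
    have h2 : cG * ((B2.card : ℝ) * (64 * (p * aG))) = 8 * B2.card := by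
      rw [hcG]; field_simp; ring
    linarith
  have j3 : (B3.card : ℝ) ≤ W0.card / 8 := by
    have h1 : cT * ((B3.card : ℝ) * (64 * (p ^ 2 * aT))) ≤ W0.card :=
      (mul_le_mul_of_nonneg_left e3 cT0.le).trans i2
    have h2 : cT * ((B3.card : ℝ) * (64 * (p ^ 2 * aT))) = 8 * B3.card := by
      rw [hcT]; field_simp; ring
    linarith
  have j4 : (W0.card : ℝ) / 2 ≤ W.card := by
    have h1 : W0.card ≤ W.card + (B1.card + (B2.card + B3.card)) := by
      have h2 := Finset.le_card_sdiff (B1 ∪ (B2 ∪ B3)) W0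
      have h3 := Finset.card_union_le B1 (B2 ∪ B3)
      have h4 := Finset.card_union_le B2 B3
      rw [← hW] at h2
      omega
    have h2 : (W0.card : ℝ) ≤ W.card + (B1.card + (B2.card + B3.card)) := by exact_mod_cast h1
    linarith
  refine ⟨W, by linarith, ?_, ?_, ?_, ?_⟩
  · intro v hv
    have hv0 := hWsub hv
    have h1 : v ∉ B2 := fun h => (Finset.mem_sdiff.mp hv).2
      (Finset.mem_union_right _ (Finset.mem_union_left _ h))
    have h2 : ∑ u ∈ W0, ind (G u v) ≤ 64 * (p * aG) := by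
      by_contra hc
      push Not at hc
      exact h1 (Finset.mem_filter.mpr ⟨hv0, hc⟩)
    exact (Finset.sum_le_sum_of_subset_of_nonneg hWsub fun _ _ _ => ind_nonneg _).trans h2
  · intro v hv
    have hv0 := hWsub hv
    have h1 : v ∉ B3 := fun h => (Finset.mem_sdiff.mp hv).2
      (Finset.mem_union_right _ (Finset.mem_union_right _ h))
    have h2 : ∑ u ∈ W0, ∑ x ∈ W0, ind (E u v x) ≤ 64 * (p ^ 2 * aT) := by
      by_contra hc
      push Not at hc
      exact h1 (Finset.mem_filter.mpr ⟨hv0, hc⟩)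
    refine le_trans ?_ h2
    refine (Finset.sum_le_sum_of_subset_of_nonneg hWsub fun _ _ _ =>
      Finset.sum_nonneg fun _ _ => ind_nonneg _).trans ?_
    exact Finset.sum_le_sum fun u _ =>
      Finset.sum_le_sum_of_subset_of_nonneg hWsub fun _ _ _ => ind_nonneg _
  · intro x hx y hy z hz w hw hOv
    have h1 : x ∉ B1 := fun h => (Finset.mem_sdiff.mp hx).2 (Finset.mem_union_left _ h)
    exact h1 (Finset.mem_filter.mpr ⟨hWsub hx, y, hWsub hy, z, hWsub hz, w, hWsub hw, hOv⟩)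
  · have h1 : ((F.filter (fun f => f ⊆ W)).card : ℝ) ≤ nF W0 := by
      rw [Finset.card_filter, hnF]
      push_cast
      refine Finset.sum_le_sum fun f _ => ?_
      by_cases h : f ⊆ W
      · rw [if_pos h, ind_pos (h.trans hWsub)]
      · rw [if_neg h]; exact ind_nonneg _
    have h2 : nF W0 ≤ 8 * (p ^ 2 * aF) * W0.card := by
      have h3 : 8 * (p ^ 2 * aF) * (cF * nF W0) = nF W0 := by rw [hcF]; field_simp
      rw [← h3]
      exact mul_le_mul_of_nonneg_left i3 (by positivity)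
    have h4 : 8 * (p ^ 2 * aF) * (W0.card : ℝ) ≤ 8 * (p ^ 2 * aF) * (2 * W.card) := by
      apply mul_le_mul_of_nonneg_left _ (by positivity)
      linarith
    linarith

end

end Pool.Agent.H993R2.LT
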