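import Pool.Agent.H993R2.LT.Proc2

set_option autoImplicit false
set_option linter.unusedSectionVars false
set_option linter.unusedVariables false

/-!
Structure of triple systems without loose triangles.
-/

namespace Pool.Agent.H993R2.LT

open scoped BigOperators Classical
open Pool.Agent.H993R2.TP (ind ind_nonneg ind_le_one ind_pos ind_neg ind_mono ind_and ind_or_le ind_not
  ind_exists_le ind_exists_le')

noncomputable section

/-- a loose-triangle-free triple system with a bound on independent sets -/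
structure LS (V : Type) [Fintype V] where
  T : V → V → V → Prop
  T12 : ∀ {x y z}, T x y z → T y x z
  T23 : ∀ {x y z}, T x y z → T x z y
  T1 : ∀ {x y z}, T x y z → x ≠ y
  lf : ∀ {a b c d e f : V}, [a, b, c, d, e, f].Nodup → T a b c → T c d e → T e f a → False
  κ : ℝ
  hind : ∀ S : Finset V, (∀ x ∈ S, ∀ y ∈ S, ∀ z ∈ S, ¬ T x y z) → (S.card : ℝ) ≤ κ

namespace LS

variable {V : Type} [Fintype V] (H : LS V)

def k (x y : V) : ℕ := (Finset.univ.filter (fun z => H.T x y z)).card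

variable {H}

lemma T13 {x y z : V} (h : H.T x y z) : x ≠ z := H.T1 (H.T23 h)

lemma T23' {x y z : V} (h : H.T x y z) : y ≠ z := H.T1 (H.T23 (H.T12 h))

lemma Trot {x y z : V} (h : H.T x y z) : H.T y z x := H.T23 (H.T12 h)

lemma Trot' {x y z : V} (h : H.T x y z) : H.T z x y := H.T12 (H.T23 h)

lemma k_symm (x y : V) : H.k x y = H.k y x := by
  unfold k
  congr 1
  ext z
  simp only [Finset.mem_filter, Finset.mem_univ, true_and]
  exact ⟨fun h => H.T12 h, fun h => H.T12 h⟩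

lemma pick {x y : V} (h : 4 ≤ H.k x y) (p q r : V) :
    ∃ z, H.T x y z ∧ z ≠ p ∧ z ≠ q ∧ z ≠ r := by
  have h1 : 0 < ((Finset.univ.filter (fun z => H.T x y z)) \ {p, q, r}).card := by
    have h2 := Finset.le_card_sdiff ({p, q, r} : Finset V) (Finset.univ.filter (fun z => H.T x y z))
    have h3 : ({p, q, r} : Finset V).card ≤ 3 := Finset.card_le_three
    unfold k at h
    omega
  rw [Finset.card_pos] at h1
  obtain ⟨z, hz⟩ := h1
  rw [Finset.mem_sdiff, Finset.mem_filter] at hz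
  simp only [Finset.mem_insert, Finset.mem_singleton, not_or] at hz
  exact ⟨z, hz.1.2, hz.2.1, hz.2.2.1, hz.2.2.2⟩

lemma ne_of_k {x y : V} (h : 4 ≤ H.k x y) : x ≠ y := by
  obtain ⟨z, hz, -⟩ := pick h x x x
  exact H.T1 hz

lemma tri_heavy {a b c : V} (h1 : 4 ≤ H.k a b) (h2 : 4 ≤ H.k b c) (h3 : 4 ≤ H.k c a) : False := by
  obtain ⟨x, hx, x1, -, -⟩ := pick h1 c c c
  obtain ⟨y, hy, y1, y2, -⟩ := pick h2 a x x
  obtain ⟨z, hz, z1, z2, z3⟩ := pick h3 b x y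
  have hab := ne_of_k h1
  have hbc := ne_of_k h2
  have hca := ne_of_k h3
  have a1 := T13 hx
  have a2 := T23' hx
  have a3 := T13 hy
  have a4 := T23' hy
  have a5 := T13 hz
  have a6 := T23' hz
  refine H.lf (a := a) (b := x) (c := b) (d := y) (e := c) (f := z) ?_ (H.T23 hx) (H.T23 hy)
    (H.T23 hz)
  simp only [List.nodup_cons, List.mem_cons, List.not_mem_nil, or_false, not_or, not_false_eq_true,
    List.nodup_nil, and_true]
  refine ⟨⟨a1, hab, y1.symm, hca.symm, a6⟩, ⟨a2.symm, y2.symm, x1, z2.symm⟩, ⟨a3, hbc, z1.symm⟩,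
    ⟨a4.symm, z3.symm⟩, a5⟩

lemma path_heavy {a b c x : V} (h : H.T a c x) (h1 : 4 ≤ H.k a b) (h2 : 4 ≤ H.k b c)
    (hbx : b ≠ x) : False := by
  obtain ⟨y, hy, y1, y2, -⟩ := pick h1 c x x
  obtain ⟨z, hz, z1, z2, z3⟩ := pick h2 a x y
  have hab := ne_of_k h1
  have hbc := ne_of_k h2
  have hac := H.T1 h
  have a1 := T13 h
  have a2 := T23' h
  have a3 := T13 hy
  have a4 := T23' hy
  have a5 := T13 hz
  have a6 := T23' hz
  refine H.lf (a := a) (b := y) (c := b) (d := z) (e := c) (f := x) ?_ (H.T23 hy) (H.T23 hz)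
    (Trot h)
  simp only [List.nodup_cons, List.mem_cons, List.not_mem_nil, or_false, not_or, not_false_eq_true,
    List.nodup_nil, and_true]
  exact ⟨⟨a3, hab, z1.symm, hac, a1⟩, ⟨a4.symm, z3.symm, y1, y2⟩, ⟨a5, hbc, hbx⟩,
    ⟨a6.symm, z2⟩, a2⟩

/-- a heavy pair `u v`, two edges at a common vertex `w` -/
lemma edge_heavy {u v w x x' : V} (h : 4 ≤ H.k u v) (h1 : H.T w x u) (h2 : H.T w x' v)
    (hx : x ≠ x') (hxv : x ≠ v) (hxu : x' ≠ u) : False := by
  obtain ⟨z, hz, z1, z2, z3⟩ := pick h w x x'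
  have huv := ne_of_k h
  have a1 := H.T1 h1
  have a2 := T13 h1
  have a3 := T23' h1
  have b1 := H.T1 h2
  have b2 := T13 h2
  have b3 := T23' h2
  have c2 := T13 hz
  have c3 := T23' hz
  refine H.lf (a := u) (b := z) (c := v) (d := x') (e := w) (f := x) ?_ (H.T23 hz)
    (H.T12 (H.T23 (H.T12 h2))) h1
  simp only [List.nodup_cons, List.mem_cons, List.not_mem_nil, or_false, not_or, not_false_eq_true,
    List.nodup_nil, and_true]
  exact ⟨⟨c2, huv, hxu.symm, a2.symm, a3.symm⟩, ⟨c3.symm, z3, z1, z2⟩, ⟨b3.symm, b2.symm, hxv.symm⟩,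
    ⟨b1.symm, hx.symm⟩, a1⟩

/-! ### counting edges -/

def pg (H : LS V) (x y z : V) : Prop := H.T x y z ∧ H.k x y < 4 ∧ H.k x z < 4

def lv (H : LS V) (v a x : V) : Prop := H.T v a x ∧ 4 ≤ H.k v a ∧ 4 ≤ H.k a x

lemma sum_ind_card (p : V → Prop) : ∑ z, ind (p z) = ((Finset.univ.filter p).card : ℝ) := by
  rw [Finset.card_filter]
  push_cast
  refine Finset.sum_congr rfl fun z _ => ?_
  unfold Pool.Agent.H993R2.TP.ind
  rfl

lemma sum_T (x y : V) : ∑ z, ind (H.T x y z) = (H.k x y : ℝ) := sum_ind_card _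

lemma pg_le1 (x y : V) : ∑ z, ind (H.pg x y z) ≤ 3 := by
  by_cases h : H.k x y < 4
  · calc ∑ z, ind (H.pg x y z) ≤ ∑ z, ind (H.T x y z) :=
          Finset.sum_le_sum fun z _ => ind_mono fun h' => h'.1
      _ = (H.k x y : ℝ) := sum_T x y
      _ ≤ 3 := by exact_mod_cast (by omega : H.k x y ≤ 3)
  · rw [Finset.sum_eq_zero]
    · norm_num
    · intro z _
      exact ind_neg fun h' => h h'.2.1

lemma pg_symm {x y z : V} (h : H.pg x y z) : H.pg x z y := ⟨H.T23 h.1, h.2.2, h.2.1⟩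

lemma pg_le2 (x z : V) : ∑ y, ind (H.pg x y z) ≤ 3 := by
  refine le_trans (Finset.sum_le_sum fun y _ => ?_) (pg_le1 (H := H) x z)
  exact ind_mono fun h => pg_symm h

/-- set of disjoint link pairs -/
def dsys (H : LS V) (x : V) (P : Finset (V × V)) : Prop :=
  (∀ p ∈ P, H.pg x p.1 p.2) ∧ (∀ p ∈ P, ∀ q ∈ P, p ≠ q →
    p.1 ≠ q.1 ∧ p.1 ≠ q.2 ∧ p.2 ≠ q.1 ∧ p.2 ≠ q.2)

lemma dsys_card {x : V} {P : Finset (V × V)} (h : H.dsys x P) : (P.card : ℝ) ≤ H.κ := by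
  have h1 : (P.image Prod.fst).card = P.card := by
    apply Finset.card_image_of_injOn
    intro p hp q hq hpq
    by_contra hne
    exact (h.2 p hp q hq hne).1 hpq
  rw [← h1]
  apply H.hind
  intro y1 hy1 y2 hy2 y3 hy3 hT
  rw [Finset.mem_image] at hy1 hy2 hy3
  obtain ⟨p1, hp1, rfl⟩ := hy1
  obtain ⟨p2, hp2, rfl⟩ := hy2
  obtain ⟨p3, hp3, rfl⟩ := hy3
  have n12 : p1 ≠ p2 := fun h' => H.T1 hT (by rw [h'])
  have n13 : p1 ≠ p3 := fun h' => T13 hT (by rw [h'])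
  have n23 : p2 ≠ p3 := fun h' => T23' hT (by rw [h'])
  have t1 := (h.1 p1 hp1).1
  have t2 := (h.1 p2 hp2).1
  have t3 := (h.1 p3 hp3).1
  obtain ⟨a1, a2, a3, a4⟩ := h.2 p1 hp1 p2 hp2 n12
  obtain ⟨b1, b2, b3, b4⟩ := h.2 p1 hp1 p3 hp3 n13
  obtain ⟨c1, c2, c3, c4⟩ := h.2 p2 hp2 p3 hp3 n23
  refine H.lf (a := x) (b := p1.2) (c := p1.1) (d := p3.1) (e := p2.1) (f := p2.2) ?_
    (H.T23 t1) (H.T23 hT) (Trot t2)
  simp only [List.nodup_cons, List.mem_cons, List.not_mem_nil, or_false, not_or, not_false_eq_true,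
    List.nodup_nil, and_true]
  exact ⟨⟨T13 t1, H.T1 t1, H.T1 t3, H.T1 t2, T13 t2⟩, ⟨(T23' t1).symm, b3, a3, a4⟩,
    ⟨b1, a1, a2⟩, ⟨c1.symm, c3.symm⟩, T23' t2⟩

end LS

end

end Pool.Agent.H993R2.LT
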