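import Pool.Agent.H993R2.LT.Struct

set_option autoImplicit false
set_option linter.unusedSectionVars false
set_option linter.unusedVariables false

/-!
Counting edges of loose-triangle-free triple systems, disjointness of blocker sets.
-/

namespace Pool.Agent.H993R2.LT

open scoped BigOperators Classical
open Pool.Agent.H993R2.TP (ind ind_nonneg ind_le_one ind_pos ind_neg ind_mono ind_and ind_or_le ind_not
  ind_exists_le ind_exists_le' sum_ind_le_one)

noncomputable section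

namespace LS

variable {V : Type} [Fintype V] {H : LS V}

lemma page_deg (x : V) : ∑ y, ∑ z, ind (H.pg x y z) ≤ 12 * H.κ := by
  obtain ⟨P, hP, hmax⟩ := Finset.exists_max_image
    (Finset.univ.filter (fun P : Finset (V × V) => H.dsys x P)) Finset.card
    ⟨∅, by rw [Finset.mem_filter]; exact ⟨Finset.mem_univ _, by constructor <;> simp⟩⟩
  rw [Finset.mem_filter] at hP
  have hPs := hP.2
  have hcard := dsys_card hPs
  set U := P.image Prod.fst ∪ P.image Prod.snd with hU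
  have hUc : (U.card : ℝ) ≤ 2 * H.κ := by
    have h1 : U.card ≤ P.card + P.card :=
      (Finset.card_union_le _ _).trans (add_le_add Finset.card_image_le Finset.card_image_le)
    have h2 : (U.card : ℝ) ≤ P.card + P.card := by exact_mod_cast h1
    linarith
  have hU1 : ∀ p ∈ P, p.1 ∈ U := fun p hp =>
    Finset.mem_union_left _ (Finset.mem_image_of_mem _ hp)
  have hU2 : ∀ p ∈ P, p.2 ∈ U := fun p hp =>
    Finset.mem_union_right _ (Finset.mem_image_of_mem _ hp)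
  have key : ∀ y z, H.pg x y z → y ∈ U ∨ z ∈ U := by
    intro y z hyz
    by_contra hcon
    push Not at hcon
    obtain ⟨hy, hz⟩ := hcon
    have hnew : (y, z) ∉ P := fun h' => hy (hU1 _ h')
    have q1 : ∀ q ∈ P, y ≠ q.1 := fun q hq h' => hy (by rw [h']; exact hU1 q hq)
    have q2 : ∀ q ∈ P, y ≠ q.2 := fun q hq h' => hy (by rw [h']; exact hU2 q hq)
    have q3 : ∀ q ∈ P, z ≠ q.1 := fun q hq h' => hz (by rw [h']; exact hU1 q hq)
    have q4 : ∀ q ∈ P, z ≠ q.2 := fun q hq h' => hz (by rw [h']; exact hU2 q hq)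
    have hd : H.dsys x (insert (y, z) P) := by
      constructor
      · intro p hp
        rw [Finset.mem_insert] at hp
        rcases hp with rfl | hp
        · exact hyz
        · exact hPs.1 p hp
      · intro p hp q hq hpq
        rw [Finset.mem_insert] at hp hq
        rcases hp with rfl | hp <;> rcases hq with rfl | hq
        · exact absurd rfl hpq
        · exact ⟨q1 q hq, q2 q hq, q3 q hq, q4 q hq⟩
        · exact ⟨(q1 p hp).symm, (q3 p hp).symm, (q2 p hp).symm, (q4 p hp).symm⟩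
        · exact hPs.2 p hp q hq hpq
    have h3 := hmax _ (Finset.mem_filter.mpr ⟨Finset.mem_univ _, hd⟩)
    rw [Finset.card_insert_of_notMem hnew] at h3
    omega
  have e1 : ∀ y z, ind (H.pg x y z) ≤ ind (y ∈ U) * ind (H.pg x y z)
      + ind (z ∈ U) * ind (H.pg x y z) := by
    intro y z
    by_cases h : H.pg x y z
    · rw [ind_pos h]
      have n1 := ind_nonneg (y ∈ U)
      have n2 := ind_nonneg (z ∈ U)
      rcases key y z h with h' | h'
      · rw [ind_pos h']; linarith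
      · rw [ind_pos h']; linarith
    · rw [ind_neg h]; simp
  have e2 : ∑ y, ind (y ∈ U) = (U.card : ℝ) := by
    rw [sum_ind_card]
    congr 2
    ext y; simp
  calc ∑ y, ∑ z, ind (H.pg x y z)
      ≤ ∑ y, ∑ z, (ind (y ∈ U) * ind (H.pg x y z) + ind (z ∈ U) * ind (H.pg x y z)) :=
        Finset.sum_le_sum fun y _ => Finset.sum_le_sum fun z _ => e1 y z
    _ = ∑ y, ind (y ∈ U) * ∑ z, ind (H.pg x y z) + ∑ z, ind (z ∈ U) * ∑ y, ind (H.pg x y z) := by
        simp only [Finset.sum_add_distrib, Finset.mul_sum]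
        congr 1
        rw [Finset.sum_comm]
    _ ≤ ∑ y, ind (y ∈ U) * 3 + ∑ z, ind (z ∈ U) * 3 := by
        refine add_le_add (Finset.sum_le_sum fun y _ => ?_) (Finset.sum_le_sum fun z _ => ?_)
        · exact mul_le_mul_of_nonneg_left (pg_le1 x y) (ind_nonneg _)
        · exact mul_le_mul_of_nonneg_left (pg_le2 x z) (ind_nonneg _)
    _ = 6 * U.card := by rw [← Finset.sum_mul, e2]; ring
    _ ≤ 12 * H.κ := by linarith

/-- leaves -/
def Y (H : LS V) (v : V) : Finset V := Finset.univ.filter (fun x => ∃ a, H.lv v a x)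

lemma mem_Y {v x : V} : x ∈ H.Y v ↔ ∃ a, H.lv v a x := by
  unfold Y; simp

lemma Y_light {v x : V} (h : x ∈ H.Y v) : H.k v x < 4 := by
  rw [mem_Y] at h
  obtain ⟨a, h1, h2, h3⟩ := h
  by_contra hc
  push Not at hc
  rw [k_symm] at hc
  exact tri_heavy h2 h3 hc

lemma leaf_indep (v : V) : ∀ x ∈ H.Y v, ∀ y ∈ H.Y v, ∀ z ∈ H.Y v, ¬ H.T x y z := by
  intro x1 hx1 x2 hx2 x3 hx3 hT
  have l1 := Y_light hx1
  have l2 := Y_light hx2
  have l3 := Y_light hx3
  obtain ⟨a3, h3, -, -⟩ := mem_Y.mp hx3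
  obtain ⟨a1, h1, h1a, h1b⟩ := mem_Y.mp hx1
  obtain ⟨a2, h2, h2a, h2b⟩ := mem_Y.mp hx2
  have d1 : ∀ x, H.k v x < 4 → a1 ≠ x := by
    rintro x hx rfl; omega
  have d2 : ∀ x, H.k v x < 4 → a2 ≠ x := by
    rintro x hx rfl; omega
  by_cases h12 : a1 = a2
  · subst h12
    rw [k_symm] at h1b
    exact path_heavy hT h1b h2b (d1 _ l3)
  · refine H.lf (a := v) (b := a1) (c := x1) (d := x3) (e := x2) (f := a2) ?_ h1 (H.T23 hT)
      (H.T12 (H.T23 (H.T12 h2)))
    simp only [List.nodup_cons, List.mem_cons, List.not_mem_nil, or_false, not_or,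
      not_false_eq_true, List.nodup_nil, and_true]
    exact ⟨⟨H.T1 h1, T13 h1, T13 h3, T13 h2, H.T1 h2⟩, ⟨d1 _ l1, d1 _ l3, d1 _ l2, h12⟩,
      ⟨T13 hT, H.T1 hT, (d2 _ l1).symm⟩, ⟨(T23' hT).symm, (d2 _ l3).symm⟩, (d2 _ l2).symm⟩

lemma leaf_deg (v : V) : ∑ a, ∑ x, ind (H.lv v a x) ≤ H.κ := by
  rw [Finset.sum_comm]
  have h1 : ∀ x, ∑ a, ind (H.lv v a x) ≤ ind (x ∈ H.Y v) := by
    intro x
    by_cases hx : x ∈ H.Y v
    · rw [ind_pos hx]
      apply sum_ind_le_one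
      intro a b ha hb
      by_contra hab
      -- v - a - x heavy path, edge v x b
      exact path_heavy (H.T23 hb.1) ha.2.1 ha.2.2 hab
    · rw [ind_neg hx]
      apply le_of_eq
      refine Finset.sum_eq_zero fun a _ => ind_neg fun h => hx (mem_Y.mpr ⟨a, h⟩)
  calc ∑ x, ∑ a, ind (H.lv v a x) ≤ ∑ x, ind (x ∈ H.Y v) := Finset.sum_le_sum fun x _ => h1 x
    _ = ((H.Y v).card : ℝ) := by
        rw [sum_ind_card]
        congr 2
        ext y; simp
    _ ≤ H.κ := H.hind _ (leaf_indep v)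

lemma κ_nonneg : 0 ≤ H.κ := by
  have := H.hind ∅ (by simp)
  simpa using this

/-- the number of edges -/
lemma sum_T_le : ∑ x, ∑ y, ∑ z, ind (H.T x y z) ≤ 42 * H.κ * (Fintype.card V : ℝ) := by
  have key : ∀ x y z, ind (H.T x y z) ≤ (ind (H.pg x y z) + ind (H.pg y x z) + ind (H.pg z x y))
      + (ind (H.lv x y z) + ind (H.lv y x z) + ind (H.lv x z y)) := by
    intro x y z
    have m1 := ind_nonneg (H.pg x y z)
    have m2 := ind_nonneg (H.pg y x z)
    have m3 := ind_nonneg (H.pg z x y)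
    have m4 := ind_nonneg (H.lv x y z)
    have m5 := ind_nonneg (H.lv y x z)
    have m6 := ind_nonneg (H.lv x z y)
    by_cases hT : H.T x y z
    swap
    · rw [ind_neg hT]; linarith
    rw [ind_pos hT]
    have s1 := k_symm (H := H) x y
    have s2 := k_symm (H := H) y z
    have s3 := k_symm (H := H) x z
    rcases Nat.lt_or_ge (H.k x y) 4 with c1 | c1 <;> rcases Nat.lt_or_ge (H.k y z) 4 with c2 | c2 <;>
      rcases Nat.lt_or_ge (H.k x z) 4 with c3 | c3
    · have : H.pg x y z := ⟨hT, c1, c3⟩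
      rw [ind_pos this]; linarith
    · have : H.pg y x z := ⟨H.T12 hT, by omega, c2⟩
      rw [ind_pos this]; linarith
    · have : H.pg x y z := ⟨hT, c1, c3⟩
      rw [ind_pos this]; linarith
    · have : H.lv x z y := ⟨H.T23 hT, c3, by omega⟩
      rw [ind_pos this]; linarith
    · have : H.pg z x y := ⟨Trot' hT, by omega, by omega⟩
      rw [ind_pos this]; linarith
    · have : H.lv y x z := ⟨H.T12 hT, by omega, c3⟩
      rw [ind_pos this]; linarith
    · have : H.lv x y z := ⟨hT, c1, c2⟩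
      rw [ind_pos this]; linarith
    · exact (tri_heavy c1 c2 (by omega)).elim
  have hκ := κ_nonneg (H := H)
  have b1 : ∑ x, ∑ y, ∑ z, ind (H.pg x y z) ≤ 12 * H.κ * (Fintype.card V : ℝ) := by
    calc _ ≤ ∑ _x : V, 12 * H.κ := Finset.sum_le_sum fun x _ => page_deg x
      _ = _ := by rw [Finset.sum_const, Finset.card_univ, nsmul_eq_mul]; ring
  have b2 : ∑ x, ∑ y, ∑ z, ind (H.pg y x z) ≤ 12 * H.κ * (Fintype.card V : ℝ) := by
    rw [Finset.sum_comm]; exact b1
  have b3 : ∑ x, ∑ y, ∑ z, ind (H.pg z x y) ≤ 12 * H.κ * (Fintype.card V : ℝ) := by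
    calc ∑ x, ∑ y, ∑ z, ind (H.pg z x y) = ∑ x, ∑ z, ∑ y, ind (H.pg z x y) :=
          Finset.sum_congr rfl fun x _ => Finset.sum_comm
      _ = ∑ z, ∑ x, ∑ y, ind (H.pg z x y) := Finset.sum_comm
      _ ≤ _ := b1
  have c1 : ∑ x, ∑ y, ∑ z, ind (H.lv x y z) ≤ H.κ * (Fintype.card V : ℝ) := by
    calc _ ≤ ∑ _x : V, H.κ := Finset.sum_le_sum fun x _ => leaf_deg x
      _ = _ := by rw [Finset.sum_const, Finset.card_univ, nsmul_eq_mul]; ring
  have c2 : ∑ x, ∑ y, ∑ z, ind (H.lv y x z) ≤ H.κ * (Fintype.card V : ℝ) := by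
    rw [Finset.sum_comm]; exact c1
  have c3 : ∑ x, ∑ y, ∑ z, ind (H.lv x z y) ≤ H.κ * (Fintype.card V : ℝ) := by
    calc ∑ x, ∑ y, ∑ z, ind (H.lv x z y) = ∑ x, ∑ z, ∑ y, ind (H.lv x z y) :=
          Finset.sum_congr rfl fun x _ => Finset.sum_comm
      _ ≤ _ := c1
  have hN : (0 : ℝ) ≤ Fintype.card V := by positivity
  calc ∑ x, ∑ y, ∑ z, ind (H.T x y z)
      ≤ ∑ x, ∑ y, ∑ z, ((ind (H.pg x y z) + ind (H.pg y x z) + ind (H.pg z x y))
      + (ind (H.lv x y z) + ind (H.lv y x z) + ind (H.lv x z y))) :=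
        Finset.sum_le_sum fun x _ => Finset.sum_le_sum fun y _ => Finset.sum_le_sum fun z _ =>
          key x y z
    _ = (∑ x, ∑ y, ∑ z, ind (H.pg x y z) + ∑ x, ∑ y, ∑ z, ind (H.pg y x z)
          + ∑ x, ∑ y, ∑ z, ind (H.pg z x y))
        + (∑ x, ∑ y, ∑ z, ind (H.lv x y z) + ∑ x, ∑ y, ∑ z, ind (H.lv y x z)
          + ∑ x, ∑ y, ∑ z, ind (H.lv x z y)) := by
        simp only [Finset.sum_add_distrib]
    _ ≤ _ := by nlinarith [mul_nonneg hκ hN]

/-! ### light edges, heavy pairs -/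

def E (H : LS V) (h : ℝ) (x y z : V) : Prop :=
  H.T x y z ∧ (H.k x y : ℝ) < h ∧ (H.k y z : ℝ) < h ∧ (H.k x z : ℝ) < h

def G (H : LS V) (h : ℝ) (x y : V) : Prop := h ≤ (H.k x y : ℝ)

lemma E12 {h : ℝ} {x y z : V} (he : H.E h x y z) : H.E h y x z :=
  ⟨H.T12 he.1, by rw [k_symm]; exact he.2.1, he.2.2.2, he.2.2.1⟩

lemma E23 {h : ℝ} {x y z : V} (he : H.E h x y z) : H.E h x z y :=
  ⟨H.T23 he.1, he.2.2.2, by rw [k_symm]; exact he.2.2.1, he.2.1⟩

lemma E_mono {h h' : ℝ} (hh : h' ≤ h) {x y z : V} (he : H.E h' x y z) : H.E h x y z :=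
  ⟨he.1, he.2.1.trans_le hh, he.2.2.1.trans_le hh, he.2.2.2.trans_le hh⟩

lemma G_symm {h : ℝ} {x y : V} (hg : H.G h x y) : H.G h y x := by
  unfold G at *; rw [k_symm]; exact hg

lemma G4 {h : ℝ} (h4 : 4 ≤ h) {x y : V} (hg : H.G h x y) : 4 ≤ H.k x y := by
  unfold G at hg
  exact_mod_cast h4.trans hg

lemma G_ne {h : ℝ} (h4 : 4 ≤ h) {x y : V} (hg : H.G h x y) : x ≠ y := ne_of_k (G4 h4 hg)

/-- no overlaps inside `W` -/
def NO (H : LS V) (h h' : ℝ) (W : Finset V) : Prop :=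
  ∀ x ∈ W, ∀ y ∈ W, ∀ z ∈ W, ∀ w ∈ W, H.E h' x y z → H.E h x y w → z = w

variable {h h' : ℝ} {W A : Finset V}

lemma core2 (h4 : 4 ≤ h) (hno : H.NO h h' W) (hA : A ⊆ W) {u v y w x : V} (hu : u ∈ W)
    (hv : v ∈ W) (hy : y ∈ W) (hw : w ∈ W) (huA : u ∉ A) (he : H.E h u v y)
    (hg : H.G h w u) (hx : x ∈ A) (hx2 : H.E h' w v x) : False := by
  have hwy : w ≠ y := by
    rintro rfl
    have h1 := he.2.2.2
    have h2 := G_symm hg
    unfold G at h2
    linarith
  have hxu : x ≠ u := by rintro rfl; exact huA hx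
  have hwu := G_ne h4 hg
  have hxy : x ≠ y := by
    rintro rfl
    exact hwu (hno v hv x hy w hw u hu (E23 (E12 hx2)) (E23 (E12 he)))
  exact edge_heavy (u := u) (v := w) (w := v) (x := y) (x' := x) (G4 h4 (G_symm hg))
    (H.T23 (H.T12 he.1)) (H.T23 (H.T12 hx2.1)) hxy.symm hwy.symm hxu

lemma core_E (h4 : 4 ≤ h) (hh : h' ≤ h) (hno : H.NO h h' W) (hA : A ⊆ W) {u v y : V} (hu : u ∈ W)
    (hv : v ∈ W) (hy : y ∈ W) (huA : u ∉ A) (hvA : v ∉ A) (he : H.E h u v y) :
    Disjoint (BB (H.G h) (H.E h') W A u) (BB (H.G h) (H.E h') W A v) := by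
  rw [Finset.disjoint_left]
  intro w hwu hwv
  unfold BB at hwu hwv
  rw [Finset.mem_filter] at hwu hwv
  obtain ⟨hw, hwu⟩ := hwu
  obtain ⟨-, hwv⟩ := hwv
  rcases hwu with hwu | ⟨x, hx, hwu⟩ <;> rcases hwv with hwv | ⟨x', hx', hwv⟩
  · have hwy : w ≠ y := by
      rintro rfl
      have h1 := he.2.2.2
      have h2 := G_symm hwu
      unfold G at h2
      linarith
    exact path_heavy he.1 (G4 h4 (G_symm hwu)) (G4 h4 hwv) hwy
  · exact core2 h4 hno hA hu hv hy hw huA he hwu hx' hwv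
  · exact core2 h4 hno hA hv hu hy hw hvA (E12 he) hwv hx hwu
  · have d1 : x ≠ u := by rintro rfl; exact huA hx
    have d2 : x ≠ v := by rintro rfl; exact hvA hx
    have d3 : x' ≠ u := by rintro rfl; exact huA hx'
    have d4 : x' ≠ v := by rintro rfl; exact hvA hx'
    have huv := H.T1 he.1
    have hwu1 := H.T1 hwu.1
    have hwv1 := H.T1 hwv.1
    have d5 : x ≠ x' := by
      rintro rfl
      exact huv (hno w hw x (hA hx) u hu v hv (E23 hwu) (E_mono hh (E23 hwv)))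
    have d6 : w ≠ y := by
      rintro rfl
      exact d2 (hno w hw u hu x (hA hx) v hv hwu (E12 (E23 he)))
    have d7 : x ≠ y := by
      rintro rfl
      exact hwv1 (hno u hu x hy w hw v hv (E23 (E12 hwu)) (E23 he))
    have d8 : x' ≠ y := by
      rintro rfl
      exact hwu1 (hno v hv x' hy w hw u hu (E23 (E12 hwv)) (E23 (E12 he)))
    refine H.lf (a := w) (b := x) (c := u) (d := y) (e := v) (f := x') ?_ (H.T23 hwu.1)
      (H.T23 he.1) (Trot hwv.1)
    simp only [List.nodup_cons, List.mem_cons, List.not_mem_nil, or_false, not_or,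
      not_false_eq_true, List.nodup_nil, and_true]
    exact ⟨⟨T13 hwu.1, hwu1, d6, hwv1, T13 hwv.1⟩, ⟨d1, d7, d2, d5⟩, ⟨T13 he.1, huv, d3.symm⟩,
      ⟨(T23' he.1).symm, d8.symm⟩, d4.symm⟩

lemma core_G (h4 : 4 ≤ h) (hh : h' ≤ h) (hno : H.NO h h' W) (hA : A ⊆ W) {u v : V} (hu : u ∈ W)
    (hv : v ∈ W) (huA : u ∉ A) (hvA : v ∉ A) (hg : H.G h u v) :
    Disjoint (BB (H.G h) (H.E h') W A u) (BB (H.G h) (H.E h') W A v) := by
  rw [Finset.disjoint_left]
  intro w hwu hwv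
  unfold BB at hwu hwv
  rw [Finset.mem_filter] at hwu hwv
  obtain ⟨hw, hwu⟩ := hwu
  obtain ⟨-, hwv⟩ := hwv
  have huv := G_ne h4 hg
  rcases hwu with hwu | ⟨x, hx, hwu⟩ <;> rcases hwv with hwv | ⟨x', hx', hwv⟩
  · exact tri_heavy (G4 h4 hg) (G4 h4 (G_symm hwv)) (G4 h4 hwu)
  · exact path_heavy (a := v) (b := u) (c := w) (x := x') (H.T12 hwv.1) (G4 h4 (G_symm hg))
      (G4 h4 (G_symm hwu)) (by rintro rfl; exact huA hx')
  · exact path_heavy (a := u) (b := v) (c := w) (x := x) (H.T12 hwu.1) (G4 h4 hg)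
      (G4 h4 (G_symm hwv)) (by rintro rfl; exact hvA hx)
  · have d5 : x ≠ x' := by
      rintro rfl
      exact huv (hno w hw x (hA hx) u hu v hv (E23 hwu) (E_mono hh (E23 hwv)))
    exact edge_heavy (G4 h4 hg) (H.T23 hwu.1) (H.T23 hwv.1) d5
      (by rintro rfl; exact hvA hx) (by rintro rfl; exact huA hx')

lemma disP_E (h4 : 4 ≤ h) (hh : h' ≤ h) (hno : H.NO h h' W) {u v y : V} (hu : u ∈ W)
    (hv : v ∈ W) (hy : y ∈ W) (he : H.E h u v y) : DisP (H.G h) (H.E h') W {u, v, y} := by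
  intro A hA a ha b hb hab haA hbA
  simp only [Finset.mem_insert, Finset.mem_singleton] at ha hb
  rcases ha with rfl | rfl | rfl <;> rcases hb with rfl | rfl | rfl
  · exact absurd rfl hab
  · exact core_E h4 hh hno hA hu hv hy haA hbA he
  · exact core_E h4 hh hno hA hu hy hv haA hbA (E23 he)
  · exact core_E h4 hh hno hA hv hu hy haA hbA (E12 he)
  · exact absurd rfl hab
  · exact core_E h4 hh hno hA hv hy hu haA hbA (E23 (E12 he))
  · exact core_E h4 hh hno hA hy hu hv haA hbA (E12 (E23 he))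
  · exact core_E h4 hh hno hA hy hv hu haA hbA (E12 (E23 (E12 he)))
  · exact absurd rfl hab

lemma disP_G (h4 : 4 ≤ h) (hh : h' ≤ h) (hno : H.NO h h' W) {u v : V} (hu : u ∈ W)
    (hv : v ∈ W) (hg : H.G h u v) : DisP (H.G h) (H.E h') W {u, v} := by
  intro A hA a ha b hb hab haA hbA
  simp only [Finset.mem_insert, Finset.mem_singleton] at ha hb
  rcases ha with rfl | rfl <;> rcases hb with rfl | rfl
  · exact absurd rfl hab
  · exact core_G h4 hh hno hA hu hv haA hbA hg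
  · exact core_G h4 hh hno hA hv hu haA hbA (G_symm hg)
  · exact absurd rfl hab

/-! ### more counting -/

lemma sum_G_le (hh0 : 0 < h) : ∑ x, ∑ y, ind (H.G h x y) ≤ 42 * H.κ * (Fintype.card V : ℝ) / h := by
  rw [le_div_iff₀ hh0]
  refine le_trans ?_ (sum_T_le (H := H))
  rw [Finset.sum_mul]
  refine Finset.sum_le_sum fun x _ => ?_
  rw [Finset.sum_mul]
  refine Finset.sum_le_sum fun y _ => ?_
  rw [sum_T]
  by_cases hg : H.G h x y
  · rw [ind_pos hg, one_mul]; exact hg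
  · rw [ind_neg hg]; simp

/-- overlapping pairs -/
def Ov (H : LS V) (h h' : ℝ) (x y z w : V) : Prop := H.E h' x y z ∧ H.E h x y w ∧ z ≠ w

lemma sum_Ov_le (hh0 : 0 ≤ h') : ∑ x, ∑ y, ∑ z, ∑ w, ind (H.Ov h h' x y z w)
    ≤ h' * (42 * H.κ * (Fintype.card V : ℝ)) := by
  have h1 : ∀ x y, ∑ z, ∑ w, ind (H.Ov h h' x y z w) ≤ h' * ∑ w, ind (H.T x y w) := by
    intro x y
    rw [Finset.sum_comm, Finset.mul_sum]
    refine Finset.sum_le_sum fun w _ => ?_
    by_cases hT : H.T x y w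
    · rw [ind_pos hT, mul_one]
      by_cases hk : (H.k x y : ℝ) < h'
      · calc ∑ z, ind (H.Ov h h' x y z w) ≤ ∑ z, ind (H.T x y z) :=
              Finset.sum_le_sum fun z _ => ind_mono fun h'' => h''.1.1
          _ = (H.k x y : ℝ) := sum_T x y
          _ ≤ h' := hk.le
      · rw [Finset.sum_eq_zero]
        · exact hh0
        · intro z _
          exact ind_neg fun h'' => hk h''.1.2.1
    · rw [ind_neg hT, mul_zero]
      apply le_of_eq
      refine Finset.sum_eq_zero fun z _ => ind_neg fun h'' => hT h''.2.1.1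
  calc ∑ x, ∑ y, ∑ z, ∑ w, ind (H.Ov h h' x y z w) ≤ ∑ x, ∑ y, h' * ∑ w, ind (H.T x y w) :=
        Finset.sum_le_sum fun x _ => Finset.sum_le_sum fun y _ => h1 x y
    _ = h' * ∑ x, ∑ y, ∑ w, ind (H.T x y w) := by simp only [Finset.mul_sum]
    _ ≤ _ := mul_le_mul_of_nonneg_left sum_T_le hh0

end LS

end

end Pool.Agent.H993R2.LT
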